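import Mathlib

set_option autoImplicit false

open Filter Topology

/-!
Definitions for the proof of `S06315` (MP_d6e406_an).
-/

namespace Pool.Agent.W_MP_d6e406_h11

universe u

/-- `f` is `ε`-bad for `C`: `f` is in the norm closed convex hull of the part of `C` at distance
more than `ε` from `f`. -/
def Bad {X : Type u} [NormedAddCommGroup X] [NormedSpace ℝ X]
    (ε : ℝ) (f : X →L[ℝ] ℝ) (C : Set (X →L[ℝ] ℝ)) : Prop :=
  f ∈ closure (convexHull ℝ {g : X →L[ℝ] ℝ | g ∈ C ∧ ε < ‖g - f‖})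

/-- weak-star closed convex subset of the dual unit ball. -/
structure WCC {X : Type u} [NormedAddCommGroup X] [NormedSpace ℝ X]
    (C : Set (X →L[ℝ] ℝ)) : Prop where
  conv : Convex ℝ C
  closed : IsClosed {f : WeakDual ℝ X | WeakDual.toStrongDual f ∈ C}
  bdd : ∀ f ∈ C, ‖f‖ ≤ 1

/-- `X` contains an isomorphic copy of `ℓ₁`. -/
def HasEll1 (X : Type u) [NormedAddCommGroup X] [NormedSpace ℝ X] : Prop :=
  ∃ T : lp (fun _ : ℕ => ℝ) 1 →L[ℝ] X, ∃ c : ℝ, 0 < c ∧ ∀ y, c * ‖y‖ ≤ ‖T y‖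

end Pool.Agent.W_MP_d6e406_h11
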