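import Pool.Agent.W_MP_d6e406_h11.Conv
import Pool.Agent.W_MP_d6e406_h18.NoTree

set_option autoImplicit false

open Filter Topology

namespace Pool.Agent.W_MP_d6e406_h11

universe u

/-- Theorem 1: if `X` has no `ℓ₁`, the dual ball is covered by the non-bad points of countably
many weak-star compact convex sets. -/
theorem good_ball {X : Type u} [NormedAddCommGroup X] [NormedSpace ℝ X] [CompleteSpace X]
    [TopologicalSpace.SeparableSpace X]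
    (hX : ¬ HasEll1 X) (ε : ℝ) (hε : 0 < ε) :
    ∃ C : ℕ → Set (X →L[ℝ] ℝ), (∀ n, WCC (C n)) ∧
      ∀ f : X →L[ℝ] ℝ, ‖f‖ ≤ 1 → ∃ n, f ∈ C n ∧ ¬ Bad ε f (C n) := by
  by_contra hG
  have hG' : ¬ Good ε {f : X →L[ℝ] ℝ | ‖f‖ ≤ 1} := fun h => hG h
  obtain ⟨x, hx1, hx⟩ := exists_dense_ball (X := X)
  obtain ⟨m, hm, y, hy, hZ⟩ := exists_trees' ε hε x hx1 hx hG'
  exact Pool.Agent.W_MP_d6e406_h18.no_tree hX m hm y hy ((2 / 5) * ε) (by positivity) hZ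

/-- one countable family for all `ε`. -/
theorem good_ball_all {X : Type u} [NormedAddCommGroup X] [NormedSpace ℝ X] [CompleteSpace X]
    [TopologicalSpace.SeparableSpace X] (hX : ¬ HasEll1 X) :
    ∃ C : ℕ → Set (X →L[ℝ] ℝ), (∀ n, WCC (C n)) ∧
      ∀ f : X →L[ℝ] ℝ, ‖f‖ ≤ 1 → ∀ ε : ℝ, 0 < ε → ∃ n, f ∈ C n ∧ ¬ Bad ε f (C n) := by
  have h1 : ∀ j : ℕ, ∃ C : ℕ → Set (X →L[ℝ] ℝ), (∀ n, WCC (C n)) ∧
      ∀ f : X →L[ℝ] ℝ, ‖f‖ ≤ 1 → ∃ n, f ∈ C n ∧ ¬ Bad (1 / ((j : ℝ) + 1)) f (C n) :=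
    fun j => good_ball hX _ (by positivity)
  choose C hC hf using h1
  obtain ⟨e, he⟩ := exists_surjective_nat (ℕ × ℕ)
  refine ⟨fun n => C (e n).1 (e n).2, fun n => hC _ _, ?_⟩
  intro f hf1 ε hε
  obtain ⟨j, hj⟩ := exists_nat_one_div_lt hε
  obtain ⟨n, hn1, hn2⟩ := hf j f hf1
  obtain ⟨k, hk⟩ := he (j, n)
  refine ⟨k, ?_⟩
  change f ∈ C (e k).1 (e k).2 ∧ ¬ Bad ε f (C (e k).1 (e k).2)
  rw [hk]
  refine ⟨hn1, fun hbad => hn2 ?_⟩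
  refine closure_mono (convexHull_mono ?_) hbad
  rintro g ⟨hg1, hg2⟩
  exact ⟨hg1, hj.trans hg2⟩

end Pool.Agent.W_MP_d6e406_h11
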