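import Pool.Agent.W_MP_d6e406_h11.Defs

set_option autoImplicit false

open Filter Topology Pointwise

/-!
The renorming lemma for `S06315` (MP_d6e406_an).
-/

namespace Pool.Agent.W_MP_d6e406_h11

universe u

namespace Renorm

variable {X : Type u} [NormedAddCommGroup X] [NormedSpace ℝ X]

/-- nonnegative, convex, norm continuous and weak-star lower semicontinuous functions -/
structure Nice (P : (X →L[ℝ] ℝ) → ℝ) : Prop where
  conv : ConvexOn ℝ Set.univ P
  cont : Continuous P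
  lsc : LowerSemicontinuous (fun f : WeakDual ℝ X => P (WeakDual.toStrongDual f))
  nonneg : ∀ f, 0 ≤ P f

theorem Nice.add {P Q : (X →L[ℝ] ℝ) → ℝ} (hP : Nice P) (hQ : Nice Q) :
    Nice (fun f => P f + Q f) where
  conv := hP.conv.add hQ.conv
  cont := hP.cont.add hQ.cont
  lsc := hP.lsc.add hQ.lsc
  nonneg f := add_nonneg (hP.nonneg f) (hQ.nonneg f)

theorem Nice.comp_neg {P : (X →L[ℝ] ℝ) → ℝ} (hP : Nice P) : Nice (fun f => P (-f)) where
  conv := by
    refine ⟨convex_univ, fun f _ g _ a b ha hb hab => ?_⟩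
    have := hP.conv.2 (Set.mem_univ (-f)) (Set.mem_univ (-g)) ha hb hab
    have e : -(a • f + b • g) = a • (-f) + b • (-g) := by
      rw [smul_neg, smul_neg, neg_add]
    simp only [e]
    exact this
  cont := hP.cont.comp continuous_neg
  lsc := by
    have h := hP.lsc.comp (continuous_neg (G := WeakDual ℝ X))
    exact h
  nonneg f := hP.nonneg _

theorem lsc_of_isClosed {P : (X →L[ℝ] ℝ) → ℝ}
    (h : ∀ t : ℝ, IsClosed {f : WeakDual ℝ X | P (WeakDual.toStrongDual f) ≤ t}) :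
    LowerSemicontinuous (fun f : WeakDual ℝ X => P (WeakDual.toStrongDual f)) :=
  lowerSemicontinuous_iff_isClosed_preimage.2 h

/-- the square of the norm -/
theorem nice_norm_sq : Nice (fun f : X →L[ℝ] ℝ => ‖f‖ ^ 2) where
  conv := by
    have h := (convexOn_univ_norm (E := X →L[ℝ] ℝ)).pow (fun f _ => norm_nonneg f) 2
    exact h
  cont := continuous_norm.pow 2
  lsc := by
    refine lsc_of_isClosed (P := fun f : X →L[ℝ] ℝ => ‖f‖ ^ 2) fun t => ?_
    rcases lt_or_ge t 0 with ht | ht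
    · have : {f : WeakDual ℝ X | ‖WeakDual.toStrongDual f‖ ^ 2 ≤ t} = ∅ := by
        ext f
        simp only [Set.mem_ofPred_eq, Set.mem_empty_iff_false, iff_false, not_le]
        exact lt_of_lt_of_le ht (sq_nonneg _)
      rw [this]
      exact isClosed_empty
    · have : {f : WeakDual ℝ X | ‖WeakDual.toStrongDual f‖ ^ 2 ≤ t} =
          WeakDual.toStrongDual ⁻¹' Metric.closedBall (0 : StrongDual ℝ X) (Real.sqrt t) := by
        ext f
        simp only [Set.mem_ofPred_eq, Set.mem_preimage, Metric.mem_closedBall, dist_zero_right]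
        rw [Real.le_sqrt (norm_nonneg _) ht]
      rw [this]
      exact WeakDual.isClosed_closedBall 0 _
  nonneg f := sq_nonneg _

/-- the square of the value at a point -/
theorem nice_eval_sq (x : X) : Nice (fun f : X →L[ℝ] ℝ => (f x) ^ 2) where
  conv := by
    refine ⟨convex_univ, fun f _ g _ a b ha hb hab => ?_⟩
    have hb' : b = 1 - a := by linarith
    simp only [add_apply, smul_apply, smul_eq_mul]
    subst hb'
    nlinarith [mul_nonneg (mul_nonneg ha hb) (sq_nonneg (f x - g x))]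
  cont := by
    have : Continuous fun f : X →L[ℝ] ℝ => f x := (ContinuousLinearMap.apply ℝ ℝ x).continuous
    exact this.pow 2
  lsc := by
    have : Continuous fun f : WeakDual ℝ X => f x := WeakDual.eval_continuous x
    exact (this.pow 2).lowerSemicontinuous
  nonneg f := sq_nonneg _

/-- the square of the distance to a weak-star compact convex set -/
theorem nice_infDist_sq {C : Set (X →L[ℝ] ℝ)} (hC : WCC C) :
    Nice (fun f : X →L[ℝ] ℝ => Metric.infDist f C ^ 2) := by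
  rcases C.eq_empty_or_nonempty with hne | hne
  · subst hne
    simp only [Metric.infDist_empty]
    refine ⟨?_, continuous_const, ?_, fun _ => by norm_num⟩
    · exact convexOn_const _ convex_univ
    · exact continuous_const.lowerSemicontinuous
  · have hconv : ConvexOn ℝ Set.univ (fun f : X →L[ℝ] ℝ => Metric.infDist f C) := by
      refine ⟨convex_univ, fun f _ g _ a b ha hb hab => ?_⟩
      refine le_of_forall_pos_le_add fun ε hε => ?_
      obtain ⟨c, hc, hfc⟩ := (Metric.infDist_lt_iff hne).1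
        (show Metric.infDist f C < Metric.infDist f C + ε by linarith)
      obtain ⟨d, hd, hgd⟩ := (Metric.infDist_lt_iff hne).1
        (show Metric.infDist g C < Metric.infDist g C + ε by linarith)
      have h1 : Metric.infDist (a • f + b • g) C ≤ dist (a • f + b • g) (a • c + b • d) :=
        Metric.infDist_le_dist_of_mem (hC.conv hc hd ha hb hab)
      have h2 : dist (a • f + b • g) (a • c + b • d) ≤ a * dist f c + b * dist g d := by
        rw [dist_eq_norm, dist_eq_norm, dist_eq_norm]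
        have e : a • f + b • g - (a • c + b • d) = a • (f - c) + b • (g - d) := by
          rw [smul_sub, smul_sub]; abel
        rw [e]
        refine (norm_add_le _ _).trans ?_
        rw [norm_smul, norm_smul, Real.norm_of_nonneg ha, Real.norm_of_nonneg hb]
      simp only [smul_eq_mul]
      have h3 : a * dist f c ≤ a * (Metric.infDist f C + ε) :=
        mul_le_mul_of_nonneg_left hfc.le ha
      have h4 : b * dist g d ≤ b * (Metric.infDist g C + ε) :=
        mul_le_mul_of_nonneg_left hgd.le hb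
      have h5 : a * ε + b * ε = ε := by rw [← add_mul, hab, one_mul]
      nlinarith
    refine ⟨hconv.pow (fun f _ => Metric.infDist_nonneg) 2,
      (Metric.continuous_infDist_pt C).pow 2, ?_, fun f => sq_nonneg _⟩
    -- weak star compactness
    have hCc : IsCompact {f : WeakDual ℝ X | WeakDual.toStrongDual f ∈ C} := by
      refine (WeakDual.isCompact_closedBall (𝕜 := ℝ) (0 : StrongDual ℝ X) 1).of_isClosed_subset
        hC.closed ?_
      intro f hf
      simp only [Set.mem_preimage, Metric.mem_closedBall, dist_zero_right]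
      exact hC.bdd _ hf
    have hsub : ∀ t : ℝ, IsClosed {f : WeakDual ℝ X | Metric.infDist (WeakDual.toStrongDual f) C ≤ t} := by
      intro t
      have e : {f : WeakDual ℝ X | Metric.infDist (WeakDual.toStrongDual f) C ≤ t} =
          ⋂ s : Set.Ioi t, ({f : WeakDual ℝ X | WeakDual.toStrongDual f ∈ C} +
            WeakDual.toStrongDual ⁻¹' Metric.closedBall (0 : StrongDual ℝ X) s) := by
        ext f
        simp only [Set.mem_ofPred_eq, Set.mem_iInter]
        constructor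
        · rintro h ⟨s, hs⟩
          obtain ⟨c, hc, hfc⟩ := (Metric.infDist_lt_iff hne).1 (lt_of_le_of_lt h hs)
          refine Set.mem_add.2 ⟨StrongDual.toWeakDual c, hc, f - StrongDual.toWeakDual c, ?_,
            add_sub_cancel _ _⟩
          simp only [Set.mem_preimage, Metric.mem_closedBall, dist_zero_right]
          rw [dist_eq_norm] at hfc
          exact hfc.le
        · intro h
          refine le_of_forall_gt_imp_ge_of_dense fun s hs => ?_
          obtain ⟨c, hc, d, hd, rfl⟩ := Set.mem_add.1 (h ⟨s, hs⟩)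
          simp only [Set.mem_preimage, Metric.mem_closedBall, dist_zero_right] at hd
          have h1 : Metric.infDist (WeakDual.toStrongDual (c + d)) C ≤
              dist (WeakDual.toStrongDual (c + d)) (WeakDual.toStrongDual c) :=
            Metric.infDist_le_dist_of_mem hc
          refine h1.trans ?_
          rw [dist_eq_norm, map_add, add_sub_cancel_left]
          exact hd
      rw [e]
      refine isClosed_iInter fun s => ?_
      exact (hCc.add (WeakDual.isCompact_closedBall (𝕜 := ℝ) (0 : StrongDual ℝ X) s)).isClosed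
    refine lsc_of_isClosed (P := fun f : X →L[ℝ] ℝ => Metric.infDist f C ^ 2) fun t => ?_
    rcases lt_or_ge t 0 with ht | ht
    · have : {f : WeakDual ℝ X | Metric.infDist (WeakDual.toStrongDual f) C ^ 2 ≤ t} = ∅ := by
        ext f
        simp only [Set.mem_ofPred_eq, Set.mem_empty_iff_false, iff_false, not_le]
        exact lt_of_lt_of_le ht (sq_nonneg _)
      rw [this]
      exact isClosed_empty
    · have : {f : WeakDual ℝ X | Metric.infDist (WeakDual.toStrongDual f) C ^ 2 ≤ t} =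
          {f : WeakDual ℝ X | Metric.infDist (WeakDual.toStrongDual f) C ≤ Real.sqrt t} := by
        ext f
        simp only [Set.mem_ofPred_eq]
        rw [Real.le_sqrt Metric.infDist_nonneg ht]
      rw [this]
      exact hsub _

theorem summable_aux {w : ℕ → ℝ} (hw : ∀ n, 0 ≤ w n) (hs : Summable w)
    {q : ℕ → (X →L[ℝ] ℝ) → ℝ} (hq : ∀ n, Nice (q n)) (hb : ∀ n f, q n f ≤ (‖f‖ + 1) ^ 2)
    (f : X →L[ℝ] ℝ) : Summable fun n => w n * q n f := by
  refine Summable.of_nonneg_of_le (fun n => mul_nonneg (hw n) ((hq n).nonneg f))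
    (fun n => mul_le_mul_of_nonneg_left (hb n f) (hw n)) (hs.mul_right _)

theorem Nice.tsum {w : ℕ → ℝ} (hw : ∀ n, 0 ≤ w n) (hs : Summable w)
    {q : ℕ → (X →L[ℝ] ℝ) → ℝ} (hq : ∀ n, Nice (q n)) (hb : ∀ n f, q n f ≤ (‖f‖ + 1) ^ 2) :
    Nice (fun f => ∑' n, w n * q n f) where
  conv := by
    refine ⟨convex_univ, fun f _ g _ a b ha hb' hab => ?_⟩
    simp only [smul_eq_mul]
    rw [← tsum_mul_left, ← tsum_mul_left, ← ((summable_aux hw hs hq hb f).mul_left a).tsum_add
      ((summable_aux hw hs hq hb g).mul_left b)]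
    refine (summable_aux hw hs hq hb _).tsum_le_tsum (fun n => ?_)
      (((summable_aux hw hs hq hb f).mul_left a).add ((summable_aux hw hs hq hb g).mul_left b))
    have := (hq n).conv.2 (Set.mem_univ f) (Set.mem_univ g) ha hb' hab
    simp only [smul_eq_mul] at this
    nlinarith [mul_le_mul_of_nonneg_left this (hw n)]
  cont := by
    rw [continuous_iff_continuousAt]
    intro f0
    have hopen : IsOpen (Metric.ball (0 : X →L[ℝ] ℝ) (‖f0‖ + 1)) := Metric.isOpen_ball
    have hmem : f0 ∈ Metric.ball (0 : X →L[ℝ] ℝ) (‖f0‖ + 1) := by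
      rw [mem_ball_zero_iff]; linarith
    refine ContinuousOn.continuousAt ?_ (hopen.mem_nhds hmem)
    refine continuousOn_tsum (u := fun n => w n * (‖f0‖ + 2) ^ 2)
      (fun n => (continuous_const.mul (hq n).cont).continuousOn) (hs.mul_right _) ?_
    intro n f hf
    rw [mem_ball_zero_iff] at hf
    rw [Real.norm_of_nonneg (mul_nonneg (hw n) ((hq n).nonneg f))]
    refine mul_le_mul_of_nonneg_left ((hb n f).trans ?_) (hw n)
    have := norm_nonneg f
    apply pow_le_pow_left₀ (by positivity)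
    linarith
  lsc := by
    intro f y hy
    have hsum := (summable_aux hw hs hq hb (WeakDual.toStrongDual f)).hasSum
    have h1 : ∀ᶠ s : Finset ℕ in atTop, y < ∑ n ∈ s, w n * q n (WeakDual.toStrongDual f) :=
      hsum.eventually_const_lt hy
    obtain ⟨s, hs'⟩ := h1.exists
    have h2 : LowerSemicontinuous
        (fun f : WeakDual ℝ X => ∑ n ∈ s, w n * q n (WeakDual.toStrongDual f)) := by
      refine lowerSemicontinuous_sum fun n _ => ?_
      have hmono : Monotone fun t : ℝ => w n * t := fun a b hab =>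
        mul_le_mul_of_nonneg_left hab (hw n)
      exact (continuous_const.mul continuous_id).comp_lowerSemicontinuous (hq n).lsc hmono
    filter_upwards [h2 f y hs'] with g hg
    refine lt_of_lt_of_le hg ?_
    exact (summable_aux hw hs hq hb (WeakDual.toStrongDual g)).sum_le_tsum s
      fun n _ => mul_nonneg (hw n) ((hq n).nonneg _)
  nonneg f := tsum_nonneg fun n => mul_nonneg (hw n) ((hq n).nonneg f)

/-- support function of the sublevel set `{Phi ≤ 1}` -/
noncomputable def NN (Phi : (X →L[ℝ] ℝ) → ℝ) (x : X) : ℝ :=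
  sSup ((fun f : X →L[ℝ] ℝ => f x) '' {f | Phi f ≤ 1})

section Body

variable {Phi : (X →L[ℝ] ℝ) → ℝ} (hP : Nice Phi) (hev : ∀ f, Phi (-f) = Phi f)
  (h0 : Phi 0 < 1) (hn : ∀ f, ‖f‖ ^ 2 ≤ Phi f)

include hn in
theorem norm_le_one {f : X →L[ℝ] ℝ} (hf : Phi f ≤ 1) : ‖f‖ ≤ 1 := by
  have := (hn f).trans hf
  nlinarith [norm_nonneg f]

include hn in
theorem bdd (x : X) : BddAbove ((fun f : X →L[ℝ] ℝ => f x) '' {f | Phi f ≤ 1}) := by
  refine ⟨‖x‖, ?_⟩
  rintro _ ⟨f, hf, rfl⟩
  calc f x ≤ ‖f x‖ := le_abs_self _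
    _ ≤ ‖f‖ * ‖x‖ := f.le_opNorm x
    _ ≤ 1 * ‖x‖ := mul_le_mul_of_nonneg_right (norm_le_one hn hf) (norm_nonneg x)
    _ = ‖x‖ := one_mul _

include hn in
theorem le_NN {f : X →L[ℝ] ℝ} (hf : Phi f ≤ 1) (x : X) : f x ≤ NN Phi x :=
  le_csSup (bdd hn x) ⟨f, hf, rfl⟩

include h0 in
theorem NN_le {x : X} {c : ℝ} (h : ∀ f, Phi f ≤ 1 → f x ≤ c) : NN Phi x ≤ c := by
  refine csSup_le ⟨_, ⟨0, h0.le, rfl⟩⟩ ?_
  rintro _ ⟨f, hf, rfl⟩
  exact h f hf

include h0 hn in
theorem NN_nonneg (x : X) : 0 ≤ NN Phi x := by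
  have := le_NN hn h0.le x
  simpa using this

include h0 hn in
theorem NN_add (x y : X) : NN Phi (x + y) ≤ NN Phi x + NN Phi y := by
  refine NN_le h0 fun f hf => ?_
  rw [map_add]
  exact add_le_add (le_NN hn hf x) (le_NN hn hf y)

include hev h0 hn in
theorem NN_smul_le (r : ℝ) (x : X) : NN Phi (r • x) ≤ |r| * NN Phi x := by
  refine NN_le h0 fun f hf => ?_
  rw [map_smul, smul_eq_mul]
  rcases le_total 0 r with hr | hr
  · rw [abs_of_nonneg hr]
    exact mul_le_mul_of_nonneg_left (le_NN hn hf x) hr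
  · rw [abs_of_nonpos hr]
    have h1 : Phi (-f) ≤ 1 := by rw [hev]; exact hf
    have h2 := le_NN hn h1 x
    rw [neg_apply] at h2
    nlinarith

include hev h0 hn in
theorem NN_smul (r : ℝ) (x : X) : NN Phi (r • x) = |r| * NN Phi x := by
  refine le_antisymm (NN_smul_le hev h0 hn r x) ?_
  rcases eq_or_ne r 0 with hr | hr
  · subst hr
    rw [abs_zero, zero_mul]
    exact NN_nonneg h0 hn _
  · have h1 := NN_smul_le hev h0 hn r⁻¹ (r • x)
    rw [smul_smul, inv_mul_cancel₀ hr, one_smul, abs_inv] at h1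
    have h2 : 0 < |r| := abs_pos.2 hr
    calc |r| * NN Phi x ≤ |r| * (|r|⁻¹ * NN Phi (r • x)) := mul_le_mul_of_nonneg_left h1 h2.le
      _ = NN Phi (r • x) := by rw [← mul_assoc, mul_inv_cancel₀ h2.ne', one_mul]

include hP h0 hn in
theorem NN_equiv : ∃ c C : ℝ, 0 < c ∧ ∀ x, c * ‖x‖ ≤ NN Phi x ∧ NN Phi x ≤ C * ‖x‖ := by
  have hopen : IsOpen {f : X →L[ℝ] ℝ | Phi f < 1} := isOpen_lt hP.cont continuous_const
  obtain ⟨r, hr, hball⟩ := Metric.isOpen_iff.1 hopen 0 h0
  refine ⟨r / 2, 1, by positivity, fun x => ⟨?_, ?_⟩⟩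
  · obtain ⟨g, hg, hgx⟩ := exists_dual_vector'' ℝ x
    have h1 : Phi ((r / 2) • g) ≤ 1 := by
      refine le_of_lt (hball ?_)
      rw [mem_ball_zero_iff, norm_smul, Real.norm_of_nonneg (by positivity)]
      nlinarith [norm_nonneg g]
    have h2 := le_NN hn h1 x
    rw [smul_apply, smul_eq_mul, hgx] at h2
    exact h2
  · refine NN_le h0 fun f hf => ?_
    calc f x ≤ ‖f x‖ := le_abs_self _
      _ ≤ ‖f‖ * ‖x‖ := f.le_opNorm x
      _ ≤ 1 * ‖x‖ := mul_le_mul_of_nonneg_right (norm_le_one hn hf) (norm_nonneg x)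

include hP h0 in
theorem bipolar {g : X →L[ℝ] ℝ} (hg : ∀ x, g x ≤ NN Phi x) : Phi g ≤ 1 := by
  by_contra hcon
  set U : Set (WeakDual ℝ X) := {f | Phi (WeakDual.toStrongDual f) ≤ 1} with hU
  have hUc : IsClosed U := lowerSemicontinuous_iff_isClosed_preimage.1 hP.lsc 1
  have hUconv : Convex ℝ U := by
    intro f hf g hg a b ha hb hab
    have h1 := hP.conv.2 (Set.mem_univ (WeakDual.toStrongDual f))
      (Set.mem_univ (WeakDual.toStrongDual g)) ha hb hab
    simp only [smul_eq_mul] at h1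
    have hf' : Phi (WeakDual.toStrongDual f) ≤ 1 := hf
    have hg' : Phi (WeakDual.toStrongDual g) ≤ 1 := hg
    show Phi (WeakDual.toStrongDual (a • f + b • g)) ≤ 1
    rw [map_add, map_smul, map_smul]
    refine h1.trans ?_
    nlinarith
  have hgU : StrongDual.toWeakDual g ∉ U := fun h => hcon h
  have : LocallyConvexSpace ℝ (WeakDual ℝ X) :=
    inferInstanceAs (LocallyConvexSpace ℝ (WeakBilin (topDualPairing ℝ X)))
  obtain ⟨φ, u, hφ1, hφ2⟩ := geometric_hahn_banach_closed_point hUconv hUc hgU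
  obtain ⟨x, hx⟩ := LinearMap.dualEmbedding_surjective (topDualPairing ℝ X) φ
  have hxe : ∀ f : WeakDual ℝ X, φ f = f x := fun f => by rw [← hx]; rfl
  have h1 : NN Phi x ≤ u := by
    refine NN_le h0 fun f hf => ?_
    have := hφ1 (StrongDual.toWeakDual f) hf
    rw [hxe] at this
    exact this.le
  have h2 : u < g x := by
    rw [hxe] at hφ2
    exact hφ2
  linarith [hg x]

include hP h0 hn in
theorem sphere {f : X →L[ℝ] ℝ} (hf : ∀ x, f x ≤ NN Phi x)
    (hf1 : ∀ ε : ℝ, 0 < ε → ∃ x, NN Phi x ≤ 1 ∧ 1 - ε < f x) : Phi f = 1 := by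
  have hle := bipolar hP h0 hf
  refine le_antisymm hle ?_
  by_contra hcon
  push Not at hcon
  have hcont : Continuous fun t : ℝ => Phi ((1 + t) • f) :=
    hP.cont.comp ((continuous_const.add continuous_id).smul continuous_const)
  have h1 : ∀ᶠ t in 𝓝 (0 : ℝ), Phi ((1 + t) • f) < 1 := by
    refine hcont.continuousAt.eventually_lt continuousAt_const ?_
    simpa using hcon
  obtain ⟨r, hr, hball⟩ := Metric.eventually_nhds_iff.1 h1
  have h2 : Phi ((1 + r / 2) • f) < 1 := by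
    apply hball
    rw [Real.dist_eq, sub_zero, abs_of_pos (by positivity)]
    linarith
  obtain ⟨x, hx1, hx2⟩ := hf1 ((r / 2) / (1 + r / 2)) (by positivity)
  have h3 := le_NN hn h2.le x
  rw [smul_apply, smul_eq_mul] at h3
  have h4 : (1 + r / 2) * (1 - (r / 2) / (1 + r / 2)) = 1 := by
    field_simp
    ring
  have h5 : (1 + r / 2) * (1 - (r / 2) / (1 + r / 2)) < (1 + r / 2) * f x :=
    mul_lt_mul_of_pos_left hx2 (by positivity)
  linarith

end Body

theorem infDist_sq_le {C : Set (X →L[ℝ] ℝ)} (hC : WCC C) (f : X →L[ℝ] ℝ) :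
    Metric.infDist f C ^ 2 ≤ (‖f‖ + 1) ^ 2 := by
  have hf := norm_nonneg f
  refine pow_le_pow_left₀ Metric.infDist_nonneg ?_ 2
  rcases C.eq_empty_or_nonempty with hne | ⟨c, hc⟩
  · subst hne
    rw [Metric.infDist_empty]
    linarith
  · refine (Metric.infDist_le_dist_of_mem hc).trans ?_
    rw [dist_eq_norm]
    refine (norm_sub_le f c).trans ?_
    linarith [hC.bdd c hc]

theorem eval_sq_le {y : X} (hy : ‖y‖ ≤ 1) (f : X →L[ℝ] ℝ) : (f y) ^ 2 ≤ (‖f‖ + 1) ^ 2 := by
  have h1 : |f y| ≤ ‖f‖ * ‖y‖ := f.le_opNorm y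
  have h2 : ‖f‖ * ‖y‖ ≤ ‖f‖ := mul_le_of_le_one_right (norm_nonneg f) hy
  have h3 := norm_nonneg f
  rw [← sq_abs]
  exact pow_le_pow_left₀ (abs_nonneg _) (by linarith) 2

/-- the weights -/
noncomputable def wt (n : ℕ) : ℝ := (1 / 2) ^ n / 16

theorem wt_pos (n : ℕ) : 0 < wt n := by
  unfold wt
  positivity

theorem wt_hasSum : HasSum wt (1 / 8) := by
  have h := hasSum_geometric_two.div_const 16
  have e : (2 : ℝ) / 16 = 1 / 8 := by norm_num
  rw [e] at h
  exact h

/-- the distance part -/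
noncomputable def S1 (C : ℕ → Set (X →L[ℝ] ℝ)) (w : ℕ → ℝ) (f : X →L[ℝ] ℝ) : ℝ :=
  ∑' n, w n * Metric.infDist f (C n) ^ 2

/-- the evaluation part -/
noncomputable def S2 (y : ℕ → X) (f : X →L[ℝ] ℝ) : ℝ := ∑' n, wt n * (f (y n)) ^ 2

theorem nice_S1 {C : ℕ → Set (X →L[ℝ] ℝ)} (hC : ∀ n, WCC (C n)) {w : ℕ → ℝ}
    (hw : ∀ n, 0 ≤ w n) (hs : Summable w) : Nice (S1 C w) :=
  Nice.tsum hw hs (q := fun n f => Metric.infDist f (C n) ^ 2)
    (fun n => nice_infDist_sq (hC n)) (fun n f => infDist_sq_le (hC n) f)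

theorem nice_S2 {y : ℕ → X} (hy : ∀ n, ‖y n‖ ≤ 1) : Nice (S2 y) :=
  Nice.tsum (fun n => (wt_pos n).le) wt_hasSum.summable (q := fun n f => (f (y n)) ^ 2)
    (fun n => nice_eval_sq (y n)) (fun n f => eval_sq_le (hy n) f)

theorem S2_neg (y : ℕ → X) (f : X →L[ℝ] ℝ) : S2 y (-f) = S2 y f := by
  unfold S2
  refine tsum_congr fun n => ?_
  rw [neg_apply, neg_sq]

theorem S2_zero (y : ℕ → X) : S2 y 0 = 0 := by
  unfold S2
  simp

theorem summable_S2 {y : ℕ → X} (hy : ∀ n, ‖y n‖ ≤ 1) (f : X →L[ℝ] ℝ) :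
    Summable fun n => wt n * (f (y n)) ^ 2 :=
  summable_aux (fun n => (wt_pos n).le) wt_hasSum.summable (q := fun n f => (f (y n)) ^ 2)
    (fun n => nice_eval_sq (y n)) (fun n f => eval_sq_le (hy n) f) f

theorem S2_comb {y : ℕ → X} (hy : ∀ n, ‖y n‖ ≤ 1) (g h : X →L[ℝ] ℝ) {a b : ℝ}
    (hab : a + b = 1) :
    S2 y (a • g + b • h) = a * S2 y g + b * S2 y h - a * b * S2 y (g - h) := by
  unfold S2
  rw [← tsum_mul_left, ← tsum_mul_left, ← tsum_mul_left,
    ← ((summable_S2 hy g).mul_left a).tsum_add ((summable_S2 hy h).mul_left b),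
    ← (((summable_S2 hy g).mul_left a).add ((summable_S2 hy h).mul_left b)).tsum_sub
      ((summable_S2 hy (g - h)).mul_left (a * b))]
  refine tsum_congr fun n => ?_
  simp only [add_apply, smul_apply, sub_apply, smul_eq_mul]
  have hb : b = 1 - a := by linarith
  subst hb
  ring

theorem eval_eq_zero {y : ℕ → X} (hy : ∀ n, ‖y n‖ ≤ 1) {f : X →L[ℝ] ℝ} (h : S2 y f ≤ 0)
    (n : ℕ) : f (y n) = 0 := by
  have h1 : wt n * (f (y n)) ^ 2 ≤ S2 y f :=
    (summable_S2 hy f).le_tsum n fun m _ => mul_nonneg (wt_pos m).le (sq_nonneg _)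
  have h2 : wt n * (f (y n)) ^ 2 ≤ 0 := h1.trans h
  have h3 : (f (y n)) ^ 2 ≤ 0 := by
    by_contra hcon
    push Not at hcon
    exact absurd h2 (not_le.2 (mul_pos (wt_pos n) hcon))
  exact pow_eq_zero_iff (two_ne_zero) |>.1 (le_antisymm h3 (sq_nonneg _))

theorem S1_zero_le {C : ℕ → Set (X →L[ℝ] ℝ)} (hC : ∀ n, WCC (C n)) : S1 C wt 0 ≤ 1 / 8 := by
  have h1 : S1 C wt 0 ≤ ∑' n, wt n := by
    refine (summable_aux (fun n => (wt_pos n).le) wt_hasSum.summable
      (q := fun n f => Metric.infDist f (C n) ^ 2)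
      (fun n => nice_infDist_sq (hC n)) (fun n f => infDist_sq_le (hC n) f) 0).tsum_le_tsum
      (fun n => ?_) wt_hasSum.summable
    refine mul_le_of_le_one_right (wt_pos n).le ?_
    have := infDist_sq_le (hC n) (0 : X →L[ℝ] ℝ)
    simpa using this
  rwa [wt_hasSum.tsum_eq] at h1

/-- one weight removed -/
noncomputable def wt' (m n : ℕ) : ℝ := if n = m then 0 else wt n

theorem wt'_nonneg (m n : ℕ) : 0 ≤ wt' m n := by
  unfold wt'
  split_ifs
  · exact le_rfl
  · exact (wt_pos n).le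

theorem wt'_summable (m : ℕ) : Summable (wt' m) := by
  refine Summable.of_nonneg_of_le (wt'_nonneg m) (fun n => ?_) wt_hasSum.summable
  unfold wt'
  split_ifs
  · exact (wt_pos n).le
  · exact le_rfl

theorem S1_split {C : ℕ → Set (X →L[ℝ] ℝ)} (hC : ∀ n, WCC (C n)) (m : ℕ) (f : X →L[ℝ] ℝ) :
    S1 C wt f = wt m * Metric.infDist f (C m) ^ 2 + S1 C (wt' m) f := by
  unfold S1
  rw [(summable_aux (fun n => (wt_pos n).le) wt_hasSum.summable
      (q := fun n f => Metric.infDist f (C n) ^ 2)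
      (fun n => nice_infDist_sq (hC n)) (fun n f => infDist_sq_le (hC n) f)
      f).tsum_eq_add_tsum_ite m]
  congr 1
  refine tsum_congr fun n => ?_
  unfold wt'
  split_ifs
  · rw [zero_mul]
  · rfl

end Renorm

open Renorm in
/-- the renorming lemma -/
theorem renorm {X : Type u} [NormedAddCommGroup X] [NormedSpace ℝ X]
    [TopologicalSpace.SeparableSpace X] (C : ℕ → Set (X →L[ℝ] ℝ))
    (hC : ∀ n, WCC (C n))
    (h : ∀ f : X →L[ℝ] ℝ, ‖f‖ ≤ 1 → ∀ ε : ℝ, 0 < ε → ∃ n, f ∈ C n ∧ ¬ Bad ε f (C n)) :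
    ∃ N : X → ℝ, (∀ x y, N (x + y) ≤ N x + N y) ∧ (∀ (r : ℝ) (x : X), N (r • x) = |r| * N x) ∧
      (∃ c C : ℝ, 0 < c ∧ ∀ x, c * ‖x‖ ≤ N x ∧ N x ≤ C * ‖x‖) ∧
      ∀ f : X →L[ℝ] ℝ, (∀ x, f x ≤ N x) → (∀ ε : ℝ, 0 < ε → ∃ x, N x ≤ 1 ∧ 1 - ε < f x) →
        (f ∈ Set.extremePoints ℝ {g : X →L[ℝ] ℝ | ∀ x, g x ≤ N x} ∧
         ∀ ε : ℝ, 0 < ε → ∃ F : Finset ((X →L[ℝ] ℝ) →L[ℝ] ℝ), ∃ δ : ℝ, 0 < δ ∧
           ∀ g : X →L[ℝ] ℝ, (∀ x, g x ≤ N x) → (∀ φ ∈ F, |φ (g - f)| < δ) → ‖g - f‖ < ε) := by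
  classical
  -- a dense sequence and its normalisation
  let xs : ℕ → X := TopologicalSpace.denseSeq X
  let y : ℕ → X := fun n => (1 + ‖xs n‖)⁻¹ • xs n
  have hy : ∀ n, ‖y n‖ ≤ 1 := by
    intro n
    have h1 := norm_nonneg (xs n)
    show ‖(1 + ‖xs n‖)⁻¹ • xs n‖ ≤ 1
    rw [norm_smul, norm_inv, Real.norm_of_nonneg (by positivity), inv_mul_le_one₀ (by positivity)]
    linarith
  have hsep : ∀ g h : X →L[ℝ] ℝ, (∀ n, (g - h) (y n) = 0) → g = h := by
    intro g h hgh
    have h1 : ∀ n, g (xs n) = h (xs n) := by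
      intro n
      have h2 := hgh n
      simp only [y, map_smul, sub_apply, smul_eq_mul] at h2
      have h3 : (1 + ‖xs n‖)⁻¹ ≠ 0 := by positivity
      have h4 := (mul_eq_zero.1 h2).resolve_left h3
      linarith
    have h5 : (g : X → ℝ) = h := by
      refine (TopologicalSpace.denseRange_denseSeq X).equalizer g.continuous h.continuous ?_
      funext n
      exact h1 n
    exact DFunLike.coe_injective h5
  -- the function
  let P : (X →L[ℝ] ℝ) → ℝ := fun f => ‖f‖ ^ 2 + S1 C wt f + S1 C wt (-f)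
  let Phi : (X →L[ℝ] ℝ) → ℝ := fun f => P f + S2 y f
  have hS1 : Nice (S1 C wt) := nice_S1 hC (fun n => (wt_pos n).le) wt_hasSum.summable
  have hP : Nice P := (nice_norm_sq.add hS1).add hS1.comp_neg
  have hS2 : Nice (S2 y) := nice_S2 hy
  have hPhi : Nice Phi := hP.add hS2
  have hev : ∀ f, Phi (-f) = Phi f := by
    intro f
    show ‖-f‖ ^ 2 + S1 C wt (-f) + S1 C wt (-(-f)) + S2 y (-f) =
      ‖f‖ ^ 2 + S1 C wt f + S1 C wt (-f) + S2 y f
    rw [norm_neg, neg_neg, S2_neg]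
    ring
  have h0 : Phi 0 < 1 := by
    show ‖(0 : X →L[ℝ] ℝ)‖ ^ 2 + S1 C wt 0 + S1 C wt (-0) + S2 y 0 < 1
    rw [norm_zero, neg_zero, S2_zero]
    have := S1_zero_le hC
    linarith
  have hn : ∀ f, ‖f‖ ^ 2 ≤ Phi f := by
    intro f
    show ‖f‖ ^ 2 ≤ ‖f‖ ^ 2 + S1 C wt f + S1 C wt (-f) + S2 y f
    linarith [hS1.nonneg f, hS1.nonneg (-f), hS2.nonneg f]
  have hset : {g : X →L[ℝ] ℝ | ∀ x, g x ≤ NN Phi x} = {g | Phi g ≤ 1} := by
    ext g
    exact ⟨fun hg => bipolar hPhi h0 hg, fun hg x => le_NN hn hg x⟩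
  refine ⟨NN Phi, NN_add h0 hn, NN_smul hev h0 hn, NN_equiv hPhi h0 hn, ?_⟩
  intro f hf hf1
  have hPf : Phi f = 1 := sphere hPhi h0 hn hf hf1
  refine ⟨?_, ?_⟩
  · rw [hset]
    refine ⟨hPf.le, fun g hg k hk hfo => ?_⟩
    obtain ⟨a, b, ha, hb, hab, rfl⟩ := hfo
    have hg' : Phi g ≤ 1 := hg
    have hk' : Phi k ≤ 1 := hk
    have h1 := hP.conv.2 (Set.mem_univ g) (Set.mem_univ k) ha.le hb.le hab
    have h2 := S2_comb hy g k hab
    have h3 : P (a • g + b • k) + S2 y (a • g + b • k) = 1 := hPf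
    simp only [smul_eq_mul] at h1
    have h4 : P g + S2 y g ≤ 1 := hg'
    have h5 : P k + S2 y k ≤ 1 := hk'
    have h6 : a * b * S2 y (g - k) ≤ 0 := by nlinarith
    have h7 : S2 y (g - k) ≤ 0 := by
      by_contra hcon
      push Not at hcon
      exact absurd h6 (not_le.2 (mul_pos (mul_pos ha hb) hcon))
    have h8 : g = k := hsep g k (eval_eq_zero hy h7)
    rw [← h8, ← add_smul, hab, one_smul]
  · intro ε hε
    have hf_norm : ‖f‖ ≤ 1 := norm_le_one hn hPf.le
    obtain ⟨m, hfm, hbad⟩ := h f hf_norm (ε / 3) (by positivity)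
    obtain ⟨φ, u, hφ1, hφ2⟩ := geometric_hahn_banach_point_closed
      ((convex_convexHull ℝ {g : X →L[ℝ] ℝ | g ∈ C m ∧ ε / 3 < ‖g - f‖}).closure)
      isClosed_closure hbad
    have hφ3 : ∀ g ∈ C m, φ g ≤ u → ‖g - f‖ ≤ ε / 3 := by
      intro g hg hgu
      by_contra hcon
      push Not at hcon
      have := hφ2 g (subset_closure (subset_convexHull ℝ _ ⟨hg, hcon⟩))
      linarith
    -- the remaining function
    let Psi : (X →L[ℝ] ℝ) → ℝ := fun f => ‖f‖ ^ 2 + S1 C (wt' m) f + S1 C wt (-f) + S2 y f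
    have hPsi : Nice Psi :=
      ((nice_norm_sq.add (nice_S1 hC (wt'_nonneg m) (wt'_summable m))).add hS1.comp_neg).add hS2
    have hsplit : ∀ g, Phi g = wt m * Metric.infDist g (C m) ^ 2 + Psi g := by
      intro g
      show ‖g‖ ^ 2 + S1 C wt g + S1 C wt (-g) + S2 y g = wt m * Metric.infDist g (C m) ^ 2 +
        (‖g‖ ^ 2 + S1 C (wt' m) g + S1 C wt (-g) + S2 y g)
      rw [S1_split hC m g]
      ring
    have hPsif : Psi f = 1 := by
      have := hsplit f
      rw [hPf, Metric.infDist_zero_of_mem hfm] at this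
      linarith
    -- the small number
    have hgap : 0 < u - φ f := by linarith
    obtain ⟨η, hη0, hη1, hη2⟩ : ∃ η : ℝ, 0 < η ∧ η ≤ ε / 3 ∧ ‖φ‖ * η < (u - φ f) / 2 := by
      refine ⟨min (ε / 3) ((u - φ f) / (2 * (‖φ‖ + 1)) / 2), ?_, min_le_left _ _, ?_⟩
      · have := norm_nonneg φ
        positivity
      · have h1 := norm_nonneg φ
        have h2 : ‖φ‖ * min (ε / 3) ((u - φ f) / (2 * (‖φ‖ + 1)) / 2) ≤
            (‖φ‖ + 1) * ((u - φ f) / (2 * (‖φ‖ + 1)) / 2) := by
          have h3 : 0 ≤ min (ε / 3) ((u - φ f) / (2 * (‖φ‖ + 1)) / 2) := by positivity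
          refine mul_le_mul (by linarith) (min_le_right _ _) h3 (by linarith)
        have h4 : (‖φ‖ + 1) * ((u - φ f) / (2 * (‖φ‖ + 1)) / 2) = (u - φ f) / 4 := by
          field_simp
          norm_num
        rw [h4] at h2
        linarith
    -- second separation
    have hL : IsClosed {g : X →L[ℝ] ℝ | Psi g ≤ 1 - wt m * η ^ 2} :=
      isClosed_le hPsi.cont continuous_const
    have hLc : Convex ℝ {g : X →L[ℝ] ℝ | Psi g ≤ 1 - wt m * η ^ 2} := by
      have := hPsi.conv.convex_le (1 - wt m * η ^ 2)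
      simpa using this
    have hfL : f ∉ {g : X →L[ℝ] ℝ | Psi g ≤ 1 - wt m * η ^ 2} := by
      simp only [Set.mem_ofPred_eq, not_le, hPsif]
      have := mul_pos (wt_pos m) (pow_pos hη0 2)
      linarith
    obtain ⟨ψ, v, hψ1, hψ2⟩ := geometric_hahn_banach_point_closed hLc hL hfL
    refine ⟨{φ, ψ}, min ((u - φ f) / 2) (v - ψ f), lt_min (by linarith) (by linarith), ?_⟩
    intro g hg hgF
    have hg1 := hgF φ (by simp)
    have hg2 := hgF ψ (by simp)
    rw [map_sub] at hg1 hg2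
    have hg3 : φ g - φ f < (u - φ f) / 2 :=
      lt_of_le_of_lt (le_abs_self _) (lt_of_lt_of_le hg1 (min_le_left _ _))
    have hg4 : ψ g - ψ f < v - ψ f :=
      lt_of_le_of_lt (le_abs_self _) (lt_of_lt_of_le hg2 (min_le_right _ _))
    have hgPhi : Phi g ≤ 1 := bipolar hPhi h0 hg
    have hgPsi : 1 - wt m * η ^ 2 < Psi g := by
      by_contra hcon
      push Not at hcon
      have := hψ2 g hcon
      linarith
    have hdist : Metric.infDist g (C m) < η := by
      have h1 := hsplit g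
      have h2 : wt m * Metric.infDist g (C m) ^ 2 < wt m * η ^ 2 := by linarith
      have h3 : Metric.infDist g (C m) ^ 2 < η ^ 2 := lt_of_mul_lt_mul_left h2 (wt_pos m).le
      exact lt_of_pow_lt_pow_left₀ 2 hη0.le h3
    obtain ⟨k, hk, hgk⟩ := (Metric.infDist_lt_iff ⟨f, hfm⟩).1 hdist
    have hφk : φ k ≤ u := by
      have h1 : φ k - φ g ≤ ‖φ‖ * ‖k - g‖ := by
        rw [← map_sub]
        exact (le_abs_self _).trans (φ.le_opNorm _)
      have h2 : ‖k - g‖ ≤ η := by
        rw [← dist_eq_norm, dist_comm]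
        exact hgk.le
      have h3 : ‖φ‖ * ‖k - g‖ ≤ ‖φ‖ * η := mul_le_mul_of_nonneg_left h2 (norm_nonneg φ)
      linarith
    have hkf := hφ3 k hk hφk
    calc ‖g - f‖ = ‖(g - k) + (k - f)‖ := by rw [sub_add_sub_cancel]
      _ ≤ ‖g - k‖ + ‖k - f‖ := norm_add_le _ _
      _ < η + ε / 3 := by
          rw [← dist_eq_norm]
          exact add_lt_add_of_lt_of_le hgk hkf
      _ ≤ ε := by linarith

end Pool.Agent.W_MP_d6e406_h11
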