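import Pool.Agent.W_MP_d6e406_h11.Ideal

set_option autoImplicit false

open Filter Topology

namespace Pool.Agent.W_MP_d6e406_h11

universe u

variable {X : Type u} [NormedAddCommGroup X] [NormedSpace ℝ X]

lemma exists_eval_gt (x : ℕ → X) (hx : ∀ z : X, ‖z‖ ≤ 1 → ∀ η : ℝ, 0 < η → ∃ n, ‖x n - z‖ < η)
    (g : X →L[ℝ] ℝ) (ε : ℝ) (hg : ε < ‖g‖) : ∃ n, ε < g (x n) := by
  obtain ⟨z, hz, hgz⟩ := ContinuousLinearMap.exists_lt_apply_of_lt_opNorm g hg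
  obtain ⟨w, hw, hgw⟩ : ∃ w : X, ‖w‖ ≤ 1 ∧ ε < g w := by
    rw [Real.norm_eq_abs, lt_abs] at hgz
    rcases hgz with h | h
    · exact ⟨z, hz.le, h⟩
    · exact ⟨-z, by rw [norm_neg]; exact hz.le, by rw [map_neg]; exact h⟩
  have hcont : ContinuousAt g w := g.continuous.continuousAt
  obtain ⟨η, hη, hball⟩ := Metric.continuousAt_iff.mp hcont (g w - ε) (by linarith)
  obtain ⟨n, hn⟩ := hx w hw η hη
  refine ⟨n, ?_⟩
  have := hball (x := x n) (by rw [dist_eq_norm]; exact hn)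
  rw [Real.dist_eq, abs_lt] at this
  linarith [this.1]

/-- one step of the construction -/
lemma step (ε : ℝ) (x : ℕ → X)
    (hx : ∀ z : X, ‖z‖ ≤ 1 → ∀ η : ℝ, 0 < η → ∃ n, ‖x n - z‖ < η)
    (A : Set (X →L[ℝ] ℝ)) (hA : ∀ f ∈ A, ‖f‖ ≤ 1) (hG : ¬ Good ε A) (δ : ℝ) (hδ : 0 < δ) :
    ∃ (d : Σ m : ℕ, (Fin (m + 1) → ℕ)) (A' : Set (X →L[ℝ] ℝ)), A' ⊆ A ∧ ¬ Good ε A' ∧
      ∀ f ∈ A', ∃ g : Fin (d.1 + 1) → (X →L[ℝ] ℝ), (∀ i, g i ∈ hull A) ∧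
        ‖(1 / ((d.1 : ℝ) + 1)) • ∑ i, g i - f‖ ≤ δ ∧ ∀ i, ε ≤ (g i - f) (x (d.2 i)) := by
  by_contra hcon
  push Not at hcon
  apply hG
  let Ad : (Σ m : ℕ, (Fin (m + 1) → ℕ)) → Set (X →L[ℝ] ℝ) := fun d =>
    {f | f ∈ A ∧ ∃ g : Fin (d.1 + 1) → (X →L[ℝ] ℝ), (∀ i, g i ∈ hull A) ∧
        ‖(1 / ((d.1 : ℝ) + 1)) • ∑ i, g i - f‖ ≤ δ ∧ ∀ i, ε ≤ (g i - f) (x (d.2 i))}
  have hAd : ∀ d, Good ε (Ad d) := by
    intro d
    by_contra hd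
    obtain ⟨f, hf, hf'⟩ := hcon d (Ad d) (fun f hf => hf.1) hd
    obtain ⟨g, hg1, hg2, hg3⟩ := hf.2
    obtain ⟨i, hi⟩ := hf' g hg1 hg2
    exact absurd (hg3 i) (not_le.mpr hi)
  let B : Option (Σ m : ℕ, (Fin (m + 1) → ℕ)) → Set (X →L[ℝ] ℝ) := fun o =>
    match o with
    | none => {f | f ∈ A ∧ ¬ Bad ε f (hull A)}
    | some d => Ad d
  have hB : ∀ o, Good ε (B o) := by
    intro o
    match o with
    | none =>
      exact ⟨fun _ => hull A, fun _ => wcc_hull hA, fun f hf => ⟨0, subset_hull A hf.1, hf.2⟩⟩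
    | some d => exact hAd d
  refine (Good.iUnion B hB).mono ?_
  intro f hf
  rw [Set.mem_iUnion]
  by_cases hbad : Bad ε f (hull A)
  · obtain ⟨m, g, hg, hgf⟩ := exists_avg_of_mem_closure _ f hbad δ hδ
    have h1 : ∀ i, ∃ n, ε < (g i - f) (x n) := fun i =>
      exists_eval_gt x hx (g i - f) ε (hg i).2
    choose n hn using h1
    exact ⟨some ⟨m, n⟩, hf, g, fun i => (hg i).1, hgf.le, fun i => (hn i).le⟩
  · exact ⟨none, hf, hbad⟩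

structure Stage (X : Type u) [NormedAddCommGroup X] [NormedSpace ℝ X] (ε : ℝ) where
  A : Set (X →L[ℝ] ℝ)
  bdd : ∀ f ∈ A, ‖f‖ ≤ 1
  bad : ¬ Good ε A

/-- the whole tree family, for every height `K`. -/
theorem exists_trees (ε : ℝ) (hε : 0 < ε) (x : ℕ → X) (hx1 : ∀ n, ‖x n‖ ≤ 1)
    (hx : ∀ z : X, ‖z‖ ≤ 1 → ∀ η : ℝ, 0 < η → ∃ n, ‖x n - z‖ < η)
    (hG : ¬ Good ε {f : X →L[ℝ] ℝ | ‖f‖ ≤ 1}) :
    ∃ (m : ℕ → ℕ) (n : ∀ k : ℕ, Fin (m k + 1) → ℕ),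
      ∀ K : ℕ, ∃ Z : Om m K → (X →L[ℝ] ℝ), (∀ o, ‖Z o‖ ≤ 1) ∧
        ∀ k < K, (2 / 5) * ε ≤ test m (fun k i => x (n k i)) K k Z := by
  let δ : ℕ → ℝ := fun k => ε / 20 * (1 / 2) ^ k
  have hδ : ∀ k, 0 < δ k := fun k => by positivity
  have hstep : ∀ (k : ℕ) (S : Stage X ε), ∃ (d : Σ m : ℕ, (Fin (m + 1) → ℕ)) (S' : Stage X ε),
      S'.A ⊆ S.A ∧ ∀ f ∈ S'.A, ∃ g : Fin (d.1 + 1) → (X →L[ℝ] ℝ), (∀ i, g i ∈ hull S.A) ∧
        ‖(1 / ((d.1 : ℝ) + 1)) • ∑ i, g i - f‖ ≤ δ k ∧ ∀ i, ε ≤ (g i - f) (x (d.2 i)) := by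
    intro k S
    obtain ⟨d, A', h1, h2, h3⟩ := step ε x hx S.A S.bdd S.bad (δ k) (hδ k)
    exact ⟨d, ⟨A', fun f hf => S.bdd f (h1 hf), h2⟩, h1, h3⟩
  choose d S' hsub hprop using hstep
  let S : ℕ → Stage X ε := fun k => Nat.rec ⟨_, fun f hf => hf, hG⟩ (fun k T => S' k T) k
  have hS : ∀ k, S (k + 1) = S' k (S k) := fun k => rfl
  let D : ℕ → (Σ m : ℕ, (Fin (m + 1) → ℕ)) := fun k => d k (S k)
  let m : ℕ → ℕ := fun k => (D k).1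
  let n : ∀ k : ℕ, Fin (m k + 1) → ℕ := fun k => (D k).2
  let y : ∀ k : ℕ, Fin (m k + 1) → X := fun k i => x (n k i)
  have hy : ∀ k i, ‖y k i‖ ≤ 1 := fun k i => hx1 _
  let e : ℕ → ℝ := fun a => ∑ k ∈ Finset.range a, δ k
  have he0 : ∀ a, 0 ≤ e a := fun a => Finset.sum_nonneg fun k _ => (hδ k).le
  have he : ∀ a, e a ≤ ε / 10 := by
    intro a
    have h1 : e a = ε / 20 * ∑ k ∈ Finset.range a, (1 / 2 : ℝ) ^ k := by
      simp only [e, δ, Finset.mul_sum]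
    rw [h1]
    have h2 := sum_geometric_two_le a
    nlinarith
  have hQ : ∀ a, (S a).A ⊆ QQ m y a (e a) ((2 / 5) * ε) := by
    intro a
    induction a with
    | zero =>
      intro V hV
      refine ⟨(S 0).bdd V hV, fun _ => V, fun _ => (S 0).bdd V hV, ?_, ?_⟩
      · rw [av_const]; simp [e]
      · intro k hk; exact absurd hk (Nat.not_lt_zero k)
    | succ a ih =>
      intro V hV
      have hV' : V ∈ (S' a (S a)).A := hV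
      obtain ⟨g, hg1, hg2, hg3⟩ := hprop a (S a) V hV'
      have hmem : ∀ i, g i ∈ QQ m y a (e a) ((2 / 5) * ε) := fun i =>
        hull_subset (wcc_QQ m y a (e a) _ (he0 a)) ih (hg1 i)
      have he' : e (a + 1) = e a + δ a := by
        simp only [e, Finset.sum_range_succ]
      rw [he']
      refine QQ_step m y a hy (e a) ((2 / 5) * ε) (δ a) ε V (ih (hsub a (S a) hV')) g hmem
        hg2 hg3 ?_
      have := he a
      linarith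
  refine ⟨m, n, fun K => ?_⟩
  have hne : (S K).A.Nonempty := by
    by_contra hemp
    rw [Set.not_nonempty_iff_eq_empty] at hemp
    apply (S K).bad
    rw [hemp]
    exact ⟨fun _ => ∅, fun _ => ⟨convex_empty, by simp, by simp⟩, by simp⟩
  obtain ⟨V, hV⟩ := hne
  obtain ⟨_, Z, hZ1, _, hZ3⟩ := hQ K hV
  exact ⟨Z, hZ1, hZ3⟩

lemma exists_dense_ball [TopologicalSpace.SeparableSpace X] :
    ∃ x : ℕ → X, (∀ n, ‖x n‖ ≤ 1) ∧
      ∀ z : X, ‖z‖ ≤ 1 → ∀ η : ℝ, 0 < η → ∃ n, ‖x n - z‖ < η := by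
  have : TopologicalSpace.SeparableSpace (Metric.closedBall (0 : X) 1) := inferInstance
  have : Nonempty (Metric.closedBall (0 : X) 1) := ⟨⟨0, by simp⟩⟩
  obtain ⟨u, hu⟩ := TopologicalSpace.exists_dense_seq (Metric.closedBall (0 : X) 1)
  refine ⟨fun n => (u n : X), fun n => mem_closedBall_zero_iff.mp (u n).2, ?_⟩
  intro z hz η hη
  obtain ⟨n, hn⟩ := hu.exists_dist_lt (⟨z, mem_closedBall_zero_iff.mpr hz⟩ : Metric.closedBall (0 : X) 1) hη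
  refine ⟨n, ?_⟩
  rw [Subtype.dist_eq, dist_comm, dist_eq_norm] at hn
  exact hn

end Pool.Agent.W_MP_d6e406_h11
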