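import Pool.Agent.W_MP_d6e406_h11.Chain

set_option autoImplicit false

open Filter Topology

namespace Pool.Agent.W_MP_d6e406_h11

universe u

variable {X : Type u} [NormedAddCommGroup X] [NormedSpace ℝ X]

lemma co_inj (m : ℕ → ℕ) : ∀ (K : ℕ) (o o' : Om m K),
    (∀ k < K, co m K o k = co m K o' k) → o = o'
  | 0, _, _, _ => rfl
  | K + 1, (o, e), (o', e'), h => by
    have h1 : e = e' := by
      have := h K (Nat.lt_succ_self K)
      simpa [co] using this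
    have h2 : o = o' := by
      apply co_inj m K o o'
      intro k hk
      have := h k (Nat.lt_succ_of_lt hk)
      simpa [co, Function.update_of_ne hk.ne] using this
    rw [h1, h2]

lemma card_Om (m : ℕ → ℕ) : ∀ K : ℕ, Fintype.card (Om m K) =
    Fintype.card ((k : Fin K) → Fin (m k + 1) × Bool)
  | 0 => by
    simp
    rfl
  | K + 1 => by
    have h1 : Fintype.card (Om m (K + 1)) = Fintype.card (Om m K × (Fin (m K + 1) × Bool)) :=
      Fintype.card_congr (Equiv.refl _)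
    rw [h1, Fintype.card_prod, card_Om m K, Fintype.card_pi, Fintype.card_pi,
      Fin.prod_univ_castSucc]
    simp

lemma bij_co (m : ℕ → ℕ) (K : ℕ) :
    Function.Bijective (fun (o : Om m K) (k : Fin K) => co m K o k) := by
  rw [Fintype.bijective_iff_injective_and_card]
  refine ⟨?_, card_Om m K⟩
  intro o o' h
  apply co_inj m K
  intro k hk
  exact congrFun h ⟨k, hk⟩

/-- trees in the `Pi` form. -/
theorem exists_trees' (ε : ℝ) (hε : 0 < ε) (x : ℕ → X) (hx1 : ∀ n, ‖x n‖ ≤ 1)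
    (hx : ∀ z : X, ‖z‖ ≤ 1 → ∀ η : ℝ, 0 < η → ∃ n, ‖x n - z‖ < η)
    (hG : ¬ Good ε {f : X →L[ℝ] ℝ | ‖f‖ ≤ 1}) :
    ∃ (m : ℕ → ℕ) (_ : ∀ k, 0 < m k) (y : ∀ k : ℕ, Fin (m k) → X), (∀ k i, ‖y k i‖ ≤ 1) ∧
      ∀ K : ℕ, ∃ Z : ((k : Fin K) → Fin (m k) × Bool) → (X →L[ℝ] ℝ), (∀ ω, ‖Z ω‖ ≤ 1) ∧
        ∀ k : Fin K, ((2 / 5) * ε) * Fintype.card ((k : Fin K) → Fin (m k) × Bool) ≤
          ∑ ω, (if (ω k).2 then 1 else -1) * Z ω (y k (ω k).1) := by
  obtain ⟨m, n, hZ⟩ := exists_trees ε hε x hx1 hx hG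
  refine ⟨fun k => m k + 1, fun k => Nat.succ_pos _, fun k i => x (n k i), fun k i => hx1 _, ?_⟩
  intro K
  obtain ⟨Z, hZ1, hZ2⟩ := hZ K
  have hb := bij_co m K
  let e : Om m K ≃ ((k : Fin K) → Fin (m k + 1) × Bool) := Equiv.ofBijective _ hb
  refine ⟨fun ω => Z (e.symm ω), fun ω => hZ1 _, ?_⟩
  intro k
  have h1 := hZ2 k k.2
  have h2 : ∑ ω : ((k : Fin K) → Fin (m k + 1) × Bool),
      (if (ω k).2 then (1 : ℝ) else -1) * Z (e.symm ω) (x (n k (ω k).1))
      = ∑ o : Om m K, sg (co m K o k).2 * Z o (x (n k (co m K o k).1)) := by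
    rw [← Equiv.sum_comp e]
    refine Finset.sum_congr rfl fun o _ => ?_
    rw [Equiv.symm_apply_apply]
    rfl
  have hc := card_pos m K
  have h3 : (Fintype.card ((k : Fin K) → Fin (m k + 1) × Bool) : ℝ) =
      (Fintype.card (Om m K) : ℝ) := by
    rw [card_Om]
  rw [h2, h3]
  unfold test av at h1
  rw [smul_eq_mul, one_div, ← div_eq_inv_mul, le_div_iff₀ hc] at h1
  exact h1

end Pool.Agent.W_MP_d6e406_h11
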