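import Pool.Agent.W_MP_d6e406_h11.QStep

set_option autoImplicit false

open Filter Topology

namespace Pool.Agent.W_MP_d6e406_h11

universe u

variable {X : Type u} [NormedAddCommGroup X] [NormedSpace ℝ X]

/-- `A` is covered by the non-bad points of countably many weak-star compact convex sets. -/
def Good (ε : ℝ) (A : Set (X →L[ℝ] ℝ)) : Prop :=
  ∃ C : ℕ → Set (X →L[ℝ] ℝ), (∀ n, WCC (C n)) ∧ ∀ f ∈ A, ∃ n, f ∈ C n ∧ ¬ Bad ε f (C n)

lemma Good.mono {ε : ℝ} {A B : Set (X →L[ℝ] ℝ)} (hB : Good ε B) (h : A ⊆ B) : Good ε A := by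
  obtain ⟨C, hC, hf⟩ := hB
  exact ⟨C, hC, fun f hfA => hf f (h hfA)⟩

lemma Good.iUnion {ε : ℝ} {ι : Type} [Countable ι] (A : ι → Set (X →L[ℝ] ℝ))
    (h : ∀ i, Good ε (A i)) : Good ε (⋃ i, A i) := by
  rcases isEmpty_or_nonempty ι with hι | hι
  · refine ⟨fun _ => ∅, fun _ => ⟨convex_empty, by simp, by simp⟩, ?_⟩
    simp
  choose C hC hf using h
  obtain ⟨e, he⟩ := exists_surjective_nat (ι × ℕ)
  refine ⟨fun n => C (e n).1 (e n).2, fun n => hC _ _, ?_⟩
  intro f hfA
  obtain ⟨i, hi⟩ := Set.mem_iUnion.mp hfA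
  obtain ⟨n, hn⟩ := hf i f hi
  obtain ⟨k, hk⟩ := he (i, n)
  refine ⟨k, ?_⟩
  change f ∈ C (e k).1 (e k).2 ∧ ¬ Bad ε f (C (e k).1 (e k).2)
  rw [hk]
  exact hn

/-- the weak-star closed convex hull. -/
def hull (A : Set (X →L[ℝ] ℝ)) : Set (X →L[ℝ] ℝ) := ⋂₀ {C | WCC C ∧ A ⊆ C}

lemma subset_hull (A : Set (X →L[ℝ] ℝ)) : A ⊆ hull A := by
  intro f hf C hC
  exact hC.2 hf

lemma hull_subset {A Q : Set (X →L[ℝ] ℝ)} (hQ : WCC Q) (h : A ⊆ Q) : hull A ⊆ Q :=
  Set.sInter_subset_of_mem ⟨hQ, h⟩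

lemma wcc_ball : WCC {f : X →L[ℝ] ℝ | ‖f‖ ≤ 1} := by
  refine ⟨?_, (isCompact_wball 1).isClosed, fun f hf => hf⟩
  have : {f : X →L[ℝ] ℝ | ‖f‖ ≤ 1} = Metric.closedBall 0 1 := by
    ext f; simp
  rw [this]
  exact convex_closedBall 0 1

lemma wcc_hull {A : Set (X →L[ℝ] ℝ)} (hA : ∀ f ∈ A, ‖f‖ ≤ 1) : WCC (hull A) := by
  refine ⟨?_, ?_, ?_⟩
  · exact convex_sInter fun C hC => hC.1.conv
  · have : {f : WeakDual ℝ X | WeakDual.toStrongDual f ∈ hull A} =
        ⋂ C ∈ {C : Set (X →L[ℝ] ℝ) | WCC C ∧ A ⊆ C},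
          {f : WeakDual ℝ X | WeakDual.toStrongDual f ∈ C} := by
      ext f; simp [hull]
    rw [this]
    exact isClosed_biInter fun C hC => hC.1.closed
  · intro f hf
    exact (hull_subset wcc_ball (fun g hg => hA g hg)) hf

/-- closedness under midpoint-type averages: points of the closed convex hull are approximated by
uniform averages. -/
lemma exists_avg_of_mem_closure {V : Type*} [NormedAddCommGroup V] [NormedSpace ℝ V]
    (D : Set V) (f : V) (hf : f ∈ closure (convexHull ℝ D)) (δ : ℝ) (hδ : 0 < δ) :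
    ∃ (m : ℕ) (g : Fin (m + 1) → V), (∀ i, g i ∈ D) ∧
      ‖(1 / ((m : ℝ) + 1)) • ∑ i, g i - f‖ < δ := by
  -- the set of averages
  let S : Set V := {z | ∃ (ι : Type) (_ : Fintype ι) (_ : Nonempty ι) (g : ι → V),
    (∀ i, g i ∈ D) ∧ z = (1 / (Fintype.card ι : ℝ)) • ∑ i, g i}
  have hDS : D ⊆ S := by
    intro z hz
    exact ⟨Unit, inferInstance, inferInstance, fun _ => z, fun _ => hz, by simp⟩
  -- rational convex combinations
  have hrat : ∀ x ∈ S, ∀ z ∈ S, ∀ k N : ℕ, 0 < N → k ≤ N →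
      ((k : ℝ) / N) • x + (1 - (k : ℝ) / N) • z ∈ S := by
    rintro x ⟨ι, _, _, g, hg, rfl⟩ z ⟨κ, _, _, h, hh, rfl⟩ k N hN hkN
    have : NeZero N := ⟨hN.ne'⟩
    refine ⟨Fin N × ι × κ, inferInstance, inferInstance,
      fun p => if (p.1 : ℕ) < k then g p.2.1 else h p.2.2, ?_, ?_⟩
    · intro p
      dsimp only
      split_ifs
      · exact hg _
      · exact hh _
    · have hι : (Fintype.card ι : ℝ) ≠ 0 := by exact_mod_cast Fintype.card_ne_zero
      have hκ : (Fintype.card κ : ℝ) ≠ 0 := by exact_mod_cast Fintype.card_ne_zero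
      have hNR : (N : ℝ) ≠ 0 := by exact_mod_cast hN.ne'
      have hsum : ∑ p : Fin N × ι × κ, (if (p.1 : ℕ) < k then g p.2.1 else h p.2.2)
          = (k : ℝ) • ((Fintype.card κ : ℝ) • ∑ i, g i)
            + ((N : ℝ) - k) • ((Fintype.card ι : ℝ) • ∑ j, h j) := by
        rw [Fintype.sum_prod_type]
        have h1 : ∀ a : Fin N, ∑ q : ι × κ, (if (a : ℕ) < k then g q.1 else h q.2)
            = if (a : ℕ) < k then (Fintype.card κ : ℝ) • ∑ i, g i
              else (Fintype.card ι : ℝ) • ∑ j, h j := by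
          intro a
          split_ifs
          · rw [Fintype.sum_prod_type]
            simp [Finset.sum_const, Finset.card_univ, ← Finset.smul_sum,
              Nat.cast_smul_eq_nsmul]
          · rw [Fintype.sum_prod_type]
            simp [Finset.sum_const, Finset.card_univ,
              Nat.cast_smul_eq_nsmul]
        simp only [h1]
        rw [Finset.sum_ite, Finset.sum_const, Finset.sum_const]
        have c1 : (Finset.univ.filter (fun a : Fin N => (a : ℕ) < k)).card = k := by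
          have := Fin.card_filter_val_lt (n := N) (m := k)
          rw [this]; exact min_eq_right hkN
        have c2 : (Finset.univ.filter (fun a : Fin N => ¬ (a : ℕ) < k)).card = N - k := by
          have := Finset.card_filter_add_card_filter_not (s := (Finset.univ : Finset (Fin N)))
            (fun a : Fin N => (a : ℕ) < k)
          rw [c1, Finset.card_univ, Fintype.card_fin] at this
          omega
        rw [c1, c2, ← Nat.cast_smul_eq_nsmul ℝ, ← Nat.cast_smul_eq_nsmul ℝ, Nat.cast_sub hkN]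
      rw [hsum, Fintype.card_prod, Fintype.card_prod, Fintype.card_fin]
      push_cast
      simp only [smul_add, smul_smul]
      congr 1
      · congr 1
        field_simp
      · congr 1
        field_simp
  have hclS : Convex ℝ (closure S) := by
    have h1 : ∀ x ∈ S, ∀ z ∈ S, ∀ t : ℝ, 0 ≤ t → t ≤ 1 → t • x + (1 - t) • z ∈ closure S := by
      intro x hx z hz t ht0 ht1
      have hlim : Tendsto (fun N : ℕ => ((⌊t * ((N : ℝ) + 1)⌋₊ : ℝ) / ((N + 1 : ℕ) : ℝ))) atTop
          (𝓝 t) := by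
        have h2 := tendsto_nat_floor_mul_div_atTop (R := ℝ) ht0
        have h3 : Tendsto (fun N : ℕ => ((N + 1 : ℕ) : ℝ)) atTop atTop := by
          exact tendsto_natCast_atTop_atTop.comp (tendsto_add_atTop_nat 1)
        have h4 := h2.comp h3
        refine h4.congr fun N => ?_
        simp
      have hcont : Continuous (fun s : ℝ => s • x + (1 - s) • z) := by fun_prop
      have h5 := (hcont.tendsto t).comp hlim
      refine mem_closure_of_tendsto h5 (Eventually.of_forall fun N => ?_)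
      refine hrat x hx z hz _ (N + 1) (Nat.succ_pos N) ?_
      have : t * ((N : ℝ) + 1) ≤ ((N + 1 : ℕ) : ℝ) := by
        push_cast
        nlinarith [Nat.cast_nonneg (α := ℝ) N]
      calc ⌊t * ((N : ℝ) + 1)⌋₊ ≤ ⌊((N + 1 : ℕ) : ℝ)⌋₊ := Nat.floor_le_floor this
        _ = N + 1 := Nat.floor_natCast _
    intro x hx z hz a b ha hb hab
    have hb' : b = 1 - a := by linarith
    subst hb'
    have hmap : Set.MapsTo (fun p : V × V => a • p.1 + (1 - a) • p.2) (S ×ˢ S) (closure S) := by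
      rintro ⟨p, q⟩ ⟨hp, hq⟩
      exact h1 p hp q hq a ha (by linarith)
    have hcont : Continuous (fun p : V × V => a • p.1 + (1 - a) • p.2) := by fun_prop
    have := hmap.closure hcont
    rw [closure_prod_eq, closure_closure] at this
    exact this (Set.mk_mem_prod hx hz)
  have hfS : f ∈ closure S := by
    have h1 : convexHull ℝ D ⊆ closure S :=
      convexHull_min (hDS.trans subset_closure) hclS
    exact closure_minimal h1 isClosed_closure hf
  obtain ⟨z, ⟨ι, _, _, g, hg, rfl⟩, hz⟩ := Metric.mem_closure_iff.mp hfS δ hδ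
  obtain ⟨m, hm⟩ : ∃ m, Fintype.card ι = m + 1 :=
    ⟨Fintype.card ι - 1, (Nat.succ_pred_eq_of_pos Fintype.card_pos).symm⟩
  let e : Fin (m + 1) ≃ ι := (finCongr hm.symm).trans (Fintype.equivFin ι).symm
  refine ⟨m, fun i => g (e i), fun i => hg _, ?_⟩
  have h2 : ∑ i : Fin (m + 1), g (e i) = ∑ j : ι, g j := Equiv.sum_comp e g
  rw [h2, ← dist_eq_norm, dist_comm]
  rw [hm] at hz
  push_cast at hz
  exact hz

end Pool.Agent.W_MP_d6e406_h11
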