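import Pool.Agent.W_MP_d6e406_h11.Tree

set_option autoImplicit false

open Filter Topology

namespace Pool.Agent.W_MP_d6e406_h11

universe u

variable {X : Type u} [NormedAddCommGroup X] [NormedSpace ℝ X]

/-- the tests. -/
noncomputable def test (m : ℕ → ℕ) (y : ∀ k : ℕ, Fin (m k + 1) → X) (a k : ℕ)
    (Z : Om m a → (X →L[ℝ] ℝ)) : ℝ :=
  av m a (fun o => sg (co m a o k).2 * Z o (y k (co m a o k).1))

def QQ (m : ℕ → ℕ) (y : ∀ k : ℕ, Fin (m k + 1) → X) (a : ℕ) (e c : ℝ) : Set (X →L[ℝ] ℝ) :=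
  {V | ‖V‖ ≤ 1 ∧ ∃ Z : Om m a → (X →L[ℝ] ℝ), (∀ o, ‖Z o‖ ≤ 1) ∧ ‖av m a Z - V‖ ≤ e ∧
    ∀ k < a, c ≤ test m y a k Z}

section
variable (m : ℕ → ℕ) (y : ∀ k : ℕ, Fin (m k + 1) → X) (a : ℕ)

lemma test_comb (k : ℕ) (t u : ℝ) (Z W : Om m a → (X →L[ℝ] ℝ)) :
    test m y a k (fun o => t • Z o + u • W o) = t * test m y a k Z + u * test m y a k W := by
  unfold test
  rw [← smul_eq_mul, ← smul_eq_mul, ← av_smul, ← av_smul, ← av_add]
  congr 1
  ext o
  simp
  ring

lemma convex_QQ (e c : ℝ) : Convex ℝ (QQ m y a e c) := by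
  rintro V ⟨hV, Z, hZ, hZe, hZt⟩ W ⟨hW, Y, hY, hYe, hYt⟩ t u ht hu htu
  refine ⟨?_, fun o => t • Z o + u • Y o, ?_, ?_, ?_⟩
  · calc ‖t • V + u • W‖ ≤ t * ‖V‖ + u * ‖W‖ := by
          refine (norm_add_le _ _).trans ?_
          rw [norm_smul, norm_smul, Real.norm_of_nonneg ht, Real.norm_of_nonneg hu]
      _ ≤ t * 1 + u * 1 := by gcongr
      _ = 1 := by linarith
  · intro o
    calc ‖t • Z o + u • Y o‖ ≤ t * ‖Z o‖ + u * ‖Y o‖ := by
          refine (norm_add_le _ _).trans ?_
          rw [norm_smul, norm_smul, Real.norm_of_nonneg ht, Real.norm_of_nonneg hu]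
      _ ≤ t * 1 + u * 1 := by gcongr <;> [exact hZ o; exact hY o]
      _ = 1 := by linarith
  · rw [av_add, av_smul, av_smul]
    have : t • av m a Z + u • av m a Y - (t • V + u • W)
        = t • (av m a Z - V) + u • (av m a Y - W) := by
      rw [smul_sub, smul_sub]; abel
    rw [this]
    calc ‖t • (av m a Z - V) + u • (av m a Y - W)‖
        ≤ t * ‖av m a Z - V‖ + u * ‖av m a Y - W‖ := by
          refine (norm_add_le _ _).trans ?_
          rw [norm_smul, norm_smul, Real.norm_of_nonneg ht, Real.norm_of_nonneg hu]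
      _ ≤ t * e + u * e := by gcongr
      _ = e := by rw [← add_mul, htu, one_mul]
  · intro k hk
    rw [test_comb]
    calc c = t * c + u * c := by rw [← add_mul, htu, one_mul]
      _ ≤ _ := by gcongr <;> [exact hZt k hk; exact hYt k hk]

lemma isCompact_wball (r : ℝ) :
    IsCompact {f : WeakDual ℝ X | ‖WeakDual.toStrongDual f‖ ≤ r} := by
  have := WeakDual.isCompact_closedBall (𝕜 := ℝ) (E := X) 0 r
  convert this using 1
  ext f
  simp

lemma closed_QQ (e c : ℝ) (he : 0 ≤ e) :
    IsClosed {f : WeakDual ℝ X | WeakDual.toStrongDual f ∈ QQ m y a e c} := by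
  have hball := isCompact_wball (X := X) 1
  have hpi : IsCompact (Set.univ.pi
      (fun _ : Om m a => {f : WeakDual ℝ X | ‖WeakDual.toStrongDual f‖ ≤ 1})) :=
    isCompact_univ_pi (fun _ => hball)
  have hprod := hball.prod hpi
  let K1 : Set (WeakDual ℝ X × (Om m a → WeakDual ℝ X)) :=
    {p | ∀ x : X, |av m a (fun o => p.2 o x) - p.1 x| ≤ e * ‖x‖}
  let K2 : Set (WeakDual ℝ X × (Om m a → WeakDual ℝ X)) :=
    {p | ∀ k : ℕ, k < a → c ≤ av m a (fun o => sg (co m a o k).2 *
      p.2 o (y k (co m a o k).1))}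
  have ev : ∀ (o : Om m a) (x : X), Continuous
      (fun p : WeakDual ℝ X × (Om m a → WeakDual ℝ X) => p.2 o x) := by
    intro o x
    exact (WeakDual.eval_continuous x).comp ((continuous_apply o).comp continuous_snd)
  have hav : ∀ (G : Om m a → (WeakDual ℝ X × (Om m a → WeakDual ℝ X)) → ℝ),
      (∀ o, Continuous (G o)) → Continuous (fun p => av m a (fun o => G o p)) := by
    intro G hG
    unfold av
    simp only [smul_eq_mul]
    exact continuous_const.mul (continuous_finsetSum _ (fun o _ => hG o))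
  have hK1 : IsClosed K1 := by
    have : K1 = ⋂ x : X, {p | |av m a (fun o => p.2 o x) - p.1 x| ≤ e * ‖x‖} := by
      ext p; simp [K1]
    rw [this]
    refine isClosed_iInter fun x => isClosed_le ?_ continuous_const
    exact ((hav _ (fun o => ev o x)).sub
      ((WeakDual.eval_continuous x).comp continuous_fst)).abs
  have hK2 : IsClosed K2 := by
    have : K2 = ⋂ k : ℕ, ⋂ _ : k < a, {p | c ≤ av m a (fun o => sg (co m a o k).2 *
      p.2 o (y k (co m a o k).1))} := by
      ext p; simp [K2]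
    rw [this]
    refine isClosed_iInter fun k => isClosed_iInter fun _ => isClosed_le continuous_const ?_
    exact hav _ (fun o => continuous_const.mul (ev o _))
  have hK := (hprod.inter_right (hK1.inter hK2)).image continuous_fst
  convert hK.isClosed using 1
  ext f
  simp only [Set.mem_image, Set.mem_inter_iff, Set.mem_prod, Set.mem_pi, Set.mem_univ,
    forall_true_left]
  constructor
  · rintro ⟨hf, Z, hZ, hZe, hZt⟩
    refine ⟨(f, fun o => StrongDual.toWeakDual (Z o)), ⟨⟨hf, fun o => hZ o⟩, ?_, ?_⟩, rfl⟩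
    · intro x
      have h1 := (ContinuousLinearMap.le_opNorm (av m a Z - WeakDual.toStrongDual f) x).trans
        (mul_le_mul_of_nonneg_right hZe (norm_nonneg x))
      have h2 : (av m a Z) x = av m a (fun o => Z o x) := by
        have := av_map m a ((ContinuousLinearMap.apply ℝ ℝ x).toLinearMap) Z
        simpa using this
      have h3 : (av m a Z - WeakDual.toStrongDual f) x =
          av m a (fun o => Z o x) - f x := by
        rw [← h2]; rfl
      rw [h3, Real.norm_eq_abs] at h1
      exact h1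
    · intro k hk
      exact hZt k hk
  · rintro ⟨⟨g, Z⟩, ⟨⟨hg, hZ⟩, h1, h2⟩, rfl⟩
    refine ⟨hg, fun o => WeakDual.toStrongDual (Z o), fun o => hZ o, ?_, ?_⟩
    · refine ContinuousLinearMap.opNorm_le_bound _ he (fun x => ?_)
      have h2 : (av m a (fun o => WeakDual.toStrongDual (Z o))) x =
          av m a (fun o => Z o x) := by
        have := av_map m a ((ContinuousLinearMap.apply ℝ ℝ x).toLinearMap)
          (fun o => WeakDual.toStrongDual (Z o))
        simpa using this
      have h3 : (av m a (fun o => WeakDual.toStrongDual (Z o)) - WeakDual.toStrongDual g) x =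
          av m a (fun o => Z o x) - g x := by
        rw [← h2]; rfl
      rw [h3, Real.norm_eq_abs]
      exact h1 x
    · intro k hk
      exact h2 k hk

lemma wcc_QQ (e c : ℝ) (he : 0 ≤ e) : WCC (QQ m y a e c) :=
  ⟨convex_QQ m y a e c, closed_QQ m y a e c he, fun _ hf => hf.1⟩

end

end Pool.Agent.W_MP_d6e406_h11
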