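import Pool.Agent.W_MP_d6e406_h11.QSet

set_option autoImplicit false

open Filter Topology

namespace Pool.Agent.W_MP_d6e406_h11

universe u

variable {X : Type u} [NormedAddCommGroup X] [NormedSpace ℝ X]

lemma norm_avg_le {ι : Type*} [Fintype ι] [Nonempty ι] {V : Type*} [NormedAddCommGroup V]
    [NormedSpace ℝ V] (F : ι → V) (e : ℝ) (h : ∀ i, ‖F i‖ ≤ e) :
    ‖(1 / (Fintype.card ι : ℝ)) • ∑ i, F i‖ ≤ e := by
  have hp : 0 < (Fintype.card ι : ℝ) := by exact_mod_cast Fintype.card_pos
  rw [norm_smul, Real.norm_of_nonneg (by positivity)]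
  calc (1 / (Fintype.card ι : ℝ)) * ‖∑ i, F i‖
      ≤ (1 / (Fintype.card ι : ℝ)) * ∑ i : ι, e := by
        gcongr
        exact (norm_sum_le _ _).trans (Finset.sum_le_sum fun i _ => h i)
    _ = e := by
        rw [Finset.sum_const, Finset.card_univ, nsmul_eq_mul]
        field_simp

lemma le_avg {ι : Type*} [Fintype ι] [Nonempty ι] (F : ι → ℝ) (e : ℝ) (h : ∀ i, e ≤ F i) :
    e ≤ (1 / (Fintype.card ι : ℝ)) * ∑ i, F i := by
  have hp : 0 < (Fintype.card ι : ℝ) := by exact_mod_cast Fintype.card_pos
  calc e = (1 / (Fintype.card ι : ℝ)) * ∑ i : ι, e := by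
        rw [Finset.sum_const, Finset.card_univ, nsmul_eq_mul]
        field_simp
    _ ≤ _ := by gcongr with i; exact h i

variable (m : ℕ → ℕ) (y : ∀ k : ℕ, Fin (m k + 1) → X) (a : ℕ)

lemma av_eval (Z : Om m a → (X →L[ℝ] ℝ)) (x : X) :
    (av m a Z) x = av m a (fun o => Z o x) := by
  have := av_map m a ((ContinuousLinearMap.apply ℝ ℝ x).toLinearMap) Z
  simpa using this

lemma QQ_step (hy : ∀ k i, ‖y k i‖ ≤ 1) (e c δ ε : ℝ) (V : X →L[ℝ] ℝ)
    (hV : V ∈ QQ m y a e c) (g : Fin (m a + 1) → (X →L[ℝ] ℝ))
    (hg : ∀ i, g i ∈ QQ m y a e c)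
    (hδ : ‖(1 / ((m a : ℝ) + 1)) • ∑ i, g i - V‖ ≤ δ)
    (hε : ∀ i, ε ≤ (g i - V) (y a i)) (hc : 2 * c ≤ ε - 2 * e) :
    V ∈ QQ m y (a + 1) (e + δ) c := by
  obtain ⟨hV1, ZV, hZV, hZVe, hZVt⟩ := hV
  choose hg1 Zg hZg hZge hZgt using hg
  have hδ0 : 0 ≤ δ := (norm_nonneg _).trans hδ
  have he0 : 0 ≤ e := (norm_nonneg _).trans hZVe
  have hcard : (Fintype.card (Fin (m a + 1)) : ℝ) = (m a : ℝ) + 1 := by
    rw [Fintype.card_fin]; push_cast; ring
  have hm : (0 : ℝ) < (m a : ℝ) + 1 := by positivity
  let Z : Om m (a + 1) → (X →L[ℝ] ℝ) := fun o => if o.2.2 then Zg o.2.1 o.1 else ZV o.1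
  refine ⟨hV1, Z, ?_, ?_, ?_⟩
  · rintro ⟨o, i, b⟩
    cases b
    · exact hZV o
    · exact hZg i o
  · rw [av_succ]
    have h1 : (1 / (2 * ((m a : ℝ) + 1))) • ∑ i : Fin (m a + 1),
        (av m a (fun o => Z (o, (i, true))) + av m a (fun o => Z (o, (i, false)))) - V
        = (1 / 2 : ℝ) • ((1 / (Fintype.card (Fin (m a + 1)) : ℝ)) •
            ∑ i : Fin (m a + 1), (av m a (Zg i) - g i))
          + (1 / 2 : ℝ) • ((1 / ((m a : ℝ) + 1)) • ∑ i, g i - V)
          + (1 / 2 : ℝ) • (av m a ZV - V) := by
      have e1 : ∀ i : Fin (m a + 1),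
          (av m a (fun o => Z (o, (i, true))) + av m a (fun o => Z (o, (i, false))))
          = av m a (Zg i) + av m a ZV := by
        intro i
        simp [Z]
      simp only [e1]
      rw [hcard, Finset.sum_add_distrib, Finset.sum_const, Finset.card_univ, Fintype.card_fin,
        Finset.sum_sub_distrib, ← Nat.cast_smul_eq_nsmul ℝ]
      push_cast
      simp only [smul_sub, smul_add, smul_smul]
      have e2 : 1 / (2 * ((m a : ℝ) + 1)) * ((m a : ℝ) + 1) = 1 / 2 := by field_simp
      have e3 : (1 / 2 : ℝ) * (1 / ((m a : ℝ) + 1)) = 1 / (2 * ((m a : ℝ) + 1)) := by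
        field_simp
      rw [e2, e3]
      have e4 : V = (1 / 2 : ℝ) • V + (1 / 2 : ℝ) • V := by
        rw [← add_smul]; norm_num
      nth_rewrite 1 [e4]
      abel
    rw [h1]
    have n1 := norm_avg_le (fun i : Fin (m a + 1) => av m a (Zg i) - g i) e (fun i => hZge i)
    calc _ ≤ ‖(1 / 2 : ℝ) • ((1 / (Fintype.card (Fin (m a + 1)) : ℝ)) •
            ∑ i : Fin (m a + 1), (av m a (Zg i) - g i))‖
          + ‖(1 / 2 : ℝ) • ((1 / ((m a : ℝ) + 1)) • ∑ i, g i - V)‖
          + ‖(1 / 2 : ℝ) • (av m a ZV - V)‖ := norm_add₃_le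
      _ ≤ (1 / 2) * e + (1 / 2) * δ + (1 / 2) * e := by
          rw [norm_smul, norm_smul (1 / 2 : ℝ) ((1 / ((m a : ℝ) + 1)) • ∑ i, g i - V),
            norm_smul (1 / 2 : ℝ) (av m a ZV - V), Real.norm_of_nonneg (by norm_num)]
          gcongr
      _ ≤ e + δ := by linarith
  · intro k hk
    unfold test
    rw [av_succ]
    rcases Nat.lt_succ_iff_lt_or_eq.mp hk with hk' | rfl
    · have hne : k ≠ a := hk'.ne
      have e1 : ∀ i : Fin (m a + 1),
          (av m a (fun o => sg (co m (a + 1) (o, (i, true)) k).2 *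
              Z (o, (i, true)) (y k (co m (a + 1) (o, (i, true)) k).1))
            + av m a (fun o => sg (co m (a + 1) (o, (i, false)) k).2 *
              Z (o, (i, false)) (y k (co m (a + 1) (o, (i, false)) k).1)))
          = test m y a k (Zg i) + test m y a k ZV := by
        intro i
        simp [Z, test, co, Function.update_of_ne hne]
      simp only [e1]
      have : ∀ i : Fin (m a + 1), 2 * c ≤ test m y a k (Zg i) + test m y a k ZV := by
        intro i
        have h1 := hZgt i k hk'
        have h2 := hZVt k hk'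
        linarith
      have h3 := le_avg (fun i : Fin (m a + 1) => test m y a k (Zg i) + test m y a k ZV)
        (2 * c) this
      rw [hcard] at h3
      have h4 : (1 / (2 * ((m a : ℝ) + 1))) • ∑ i : Fin (m a + 1),
          (test m y a k (Zg i) + test m y a k ZV)
          = (1 / 2) * ((1 / ((m a : ℝ) + 1)) * ∑ i : Fin (m a + 1),
          (test m y a k (Zg i) + test m y a k ZV)) := by
        rw [smul_eq_mul]; field_simp
      rw [h4]
      linarith
    · have e1 : ∀ i : Fin (m k + 1),
          (av m k (fun o => sg (co m (k + 1) (o, (i, true)) k).2 *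
              Z (o, (i, true)) (y k (co m (k + 1) (o, (i, true)) k).1))
            + av m k (fun o => sg (co m (k + 1) (o, (i, false)) k).2 *
              Z (o, (i, false)) (y k (co m (k + 1) (o, (i, false)) k).1)))
          = (av m k (Zg i) - av m k ZV) (y k i) := by
        intro i
        rw [ContinuousLinearMap.sub_apply, av_eval, av_eval]
        simp only [Z, co, Function.update_self, sg_true, sg_false, if_true,
          one_mul, Bool.false_eq_true, if_false]
        have := av_smul m k (-1) (fun o => ZV o (y k i))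
        simp only [smul_eq_mul] at this
        rw [this]
        ring
      simp only [e1]
      have : ∀ i : Fin (m k + 1), 2 * c ≤ (av m k (Zg i) - av m k ZV) (y k i) := by
        intro i
        have h0 : (av m k (Zg i) - av m k ZV) (y k i) =
            (av m k (Zg i) - g i) (y k i) + (g i - V) (y k i) - (av m k ZV - V) (y k i) := by
          simp only [ContinuousLinearMap.sub_apply]; ring
        have h1 : |(av m k (Zg i) - g i) (y k i)| ≤ e := by
          have := (av m k (Zg i) - g i).le_opNorm (y k i)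
          rw [Real.norm_eq_abs] at this
          refine this.trans ?_
          calc ‖av m k (Zg i) - g i‖ * ‖y k i‖ ≤ e * 1 := by
                gcongr
                · exact hZge i
                · exact hy k i
            _ = e := mul_one e
        have h2 : |(av m k ZV - V) (y k i)| ≤ e := by
          have := (av m k ZV - V).le_opNorm (y k i)
          rw [Real.norm_eq_abs] at this
          refine this.trans ?_
          calc ‖av m k ZV - V‖ * ‖y k i‖ ≤ e * 1 := by
                gcongr
                exact hy k i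
            _ = e := mul_one e
        have h3 := hε i
        rw [h0]
        have h1' := (abs_le.mp h1).1
        have h2' := (abs_le.mp h2).2
        linarith
      have h3 := le_avg (fun i : Fin (m k + 1) => (av m k (Zg i) - av m k ZV) (y k i))
        (2 * c) this
      rw [hcard] at h3
      have h4 : (1 / (2 * ((m k : ℝ) + 1))) • ∑ i : Fin (m k + 1),
          (av m k (Zg i) - av m k ZV) (y k i)
          = (1 / 2) * ((1 / ((m k : ℝ) + 1)) * ∑ i : Fin (m k + 1),
          (av m k (Zg i) - av m k ZV) (y k i)) := by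
        rw [smul_eq_mul]; field_simp
      rw [h4]
      linarith

end Pool.Agent.W_MP_d6e406_h11
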