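import Pool.Agent.W_MP_d6e406_h11.Defs

set_option autoImplicit false

/-!
# Rosenthal's theorem on sequences without weakly Cauchy subsequences

Combinatorial forcing for states: a state is a pair `(Z, b)`, `Z` the set of the points still alive
and `b` the side (`true` for `A`, `false` for `B`) of the next set to be intersected.
-/

open Filter Topology

namespace Pool.Agent.W_MP_d6e406_h11

universe u

namespace Ros

section Comb

variable {S : Type*} (A B : ℕ → Set S)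

/-- the side `b` of the pair with index `n` -/
def side (b : Bool) (n : ℕ) : Set S := if b then A n else B n

/-- the next state -/
def nx (σ : Set S × Bool) (n : ℕ) : Set S × Bool := (σ.1 ∩ side A B σ.2 n, !σ.2)

/-- the state after the first `k` terms of `g` -/
def run (σ : Set S × Bool) (g : ℕ → ℕ) : ℕ → Set S × Bool
  | 0 => σ
  | k + 1 => run (nx A B σ (g 0)) (fun i => g (i + 1)) k

/-- `M` accepts `σ`: every increasing sequence in `M` kills `σ` -/
def Ac (M : Set ℕ) (σ : Set S × Bool) : Prop :=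
  ∀ g : ℕ → ℕ, StrictMono g → (∀ i, g i ∈ M) → ∃ k, (run A B σ g k).1 = ∅

/-- `M` rejects `σ`: no infinite subset accepts `σ` -/
def Rj (M : Set ℕ) (σ : Set S × Bool) : Prop :=
  ∀ N ⊆ M, N.Infinite → ¬ Ac A B N σ

variable {A B}

theorem Ac.mono {M N : Set ℕ} {σ : Set S × Bool} (h : Ac A B M σ) (hN : N ⊆ M) : Ac A B N σ :=
  fun g hg hgN => h g hg fun i => hN (hgN i)

theorem Rj.mono {M N : Set ℕ} {σ : Set S × Bool} (h : Rj A B M σ) (hN : N ⊆ M) : Rj A B N σ :=
  fun L hL hLi => h L (hL.trans hN) hLi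

/-- rejection does not depend on finitely many elements -/
theorem Rj.of_tail {M N : Set ℕ} {σ : Set S × Bool} (h : Rj A B N σ) (a : ℕ)
    (hM : ∀ m ∈ M, a < m → m ∈ N) : Rj A B M σ := by
  intro L hL hLi hacc
  refine h {m ∈ L | a < m} (fun m hm => hM m (hL hm.1) hm.2) ?_ (hacc.mono fun m hm => hm.1)
  have h1 : L ⊆ {m ∈ L | a < m} ∪ Set.Iic a := by
    intro m hm
    by_cases h2 : a < m
    · exact Or.inl ⟨hm, h2⟩
    · exact Or.inr (not_lt.1 h2)
  by_contra h3
  rw [Set.not_infinite] at h3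
  exact hLi ((h3.union (Set.finite_Iic a)).subset h1)

theorem Rj.nonempty {M : Set ℕ} {σ : Set S × Bool} (hM : M.Infinite) (h : Rj A B M σ) :
    σ.1.Nonempty := by
  by_contra h1
  rw [Set.not_nonempty_iff_eq_empty] at h1
  exact h M subset_rfl hM fun g _ _ => ⟨0, h1⟩

theorem tail_infinite {M : Set ℕ} (hM : M.Infinite) (a : ℕ) : {m ∈ M | a < m}.Infinite := by
  have h1 : M ⊆ {m ∈ M | a < m} ∪ Set.Iic a := by
    intro m hm
    by_cases h2 : a < m
    · exact Or.inl ⟨hm, h2⟩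
    · exact Or.inr (not_lt.1 h2)
  by_contra h3
  rw [Set.not_infinite] at h3
  exact hM ((h3.union (Set.finite_Iic a)).subset h1)

/-- one step of the diagonalisation -/
theorem decide_step (σ : Set S × Bool) (M : {M : Set ℕ // M.Infinite}) :
    ∃ N : {M : Set ℕ // M.Infinite}, (N.1 ⊆ {m ∈ M.1 | sInf M.1 < m}) ∧
      (Ac A B N.1 (nx A B σ (sInf M.1)) ∨ Rj A B N.1 (nx A B σ (sInf M.1))) := by
  by_cases h : Rj A B {m ∈ M.1 | sInf M.1 < m} (nx A B σ (sInf M.1))
  · exact ⟨⟨_, tail_infinite M.2 _⟩, subset_rfl, Or.inr h⟩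
  · unfold Rj at h
    push Not at h
    obtain ⟨N, hN, hNi, hac⟩ := h
    exact ⟨⟨N, hNi⟩, hN, Or.inl hac⟩

/-- a decreasing sequence of infinite sets and its minima -/
theorem iter_props (st : {M : Set ℕ // M.Infinite} → {M : Set ℕ // M.Infinite})
    (hst : ∀ M, (st M).1 ⊆ {m ∈ M.1 | sInf M.1 < m}) (M : {M : Set ℕ // M.Infinite}) :
    (∀ j k, j ≤ k → (st^[k] M).1 ⊆ (st^[j] M).1) ∧
    (∀ k, sInf (st^[k] M).1 ∈ (st^[k] M).1) ∧
    StrictMono (fun k => sInf (st^[k] M).1) := by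
  have h1 : ∀ j k, j ≤ k → (st^[k] M).1 ⊆ (st^[j] M).1 := by
    intro j k hjk
    induction k, hjk using Nat.le_induction with
    | base => exact subset_rfl
    | succ k _ ih =>
      rw [Function.iterate_succ_apply']
      exact (fun m hm => ih (hst _ hm).1)
  have h2 : ∀ k, sInf (st^[k] M).1 ∈ (st^[k] M).1 := fun k => Nat.sInf_mem (st^[k] M).2.nonempty
  refine ⟨h1, h2, strictMono_nat_of_lt_succ fun k => ?_⟩
  have h3 := h2 (k + 1)
  rw [Function.iterate_succ_apply'] at h3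
  have h4 := (hst _ h3).2
  rw [Function.iterate_succ_apply']
  exact h4

/-- if `σ` is rejected then, on an infinite subset, all its successors are rejected -/
theorem Rj.step {M : Set ℕ} (hM : M.Infinite) {σ : Set S × Bool} (h : Rj A B M σ) :
    ∃ N ⊆ M, N.Infinite ∧ ∀ n ∈ N, Rj A B N (nx A B σ n) := by
  choose st hst1 hst2 using decide_step (A := A) (B := B) σ
  obtain ⟨h1, h2, h3⟩ := iter_props st hst1 ⟨M, hM⟩
  set Q : ℕ → Set ℕ := fun k => (st^[k] ⟨M, hM⟩).1 with hQ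
  set n : ℕ → ℕ := fun k => sInf (Q k) with hn
  have hst2' : ∀ k, Ac A B (Q (k + 1)) (nx A B σ (n k)) ∨
      Rj A B (Q (k + 1)) (nx A B σ (n k)) := by
    intro k
    have h4 := hst2 (st^[k] ⟨M, hM⟩)
    simp only [hQ, hn, Function.iterate_succ_apply']
    exact h4
  have hnQ : ∀ j k, j ≤ k → n k ∈ Q j := fun j k hjk => h1 j k hjk (h2 k)
  by_cases hinf : {k | Ac A B (Q (k + 1)) (nx A B σ (n k))}.Infinite
  · exfalso
    refine h (n '' {k | Ac A B (Q (k + 1)) (nx A B σ (n k))}) ?_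
      (hinf.image h3.injective.injOn) ?_
    · rintro m ⟨k, _, rfl⟩
      exact hnQ 0 k (Nat.zero_le k)
    · intro g hg hgM
      obtain ⟨k, hk, hk'⟩ := hgM 0
      obtain ⟨j, hj⟩ := hk (fun i => g (i + 1)) (fun a b hab => hg (by omega)) (fun i => by
        obtain ⟨l, _, hl'⟩ := hgM (i + 1)
        rw [← hl']
        refine hnQ _ _ ?_
        have h5 : n k < n l := by
          rw [hk', hl']
          exact hg (Nat.succ_pos i)
        exact (h3.lt_iff_lt).1 h5)
      refine ⟨j + 1, ?_⟩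
      simp only [run]
      rw [← hk']
      exact hj
  · rw [Set.not_infinite] at hinf
    obtain ⟨K, hK⟩ := hinf.bddAbove
    refine ⟨n '' {k | K < k}, ?_, (Set.Ioi_infinite K).image h3.injective.injOn, ?_⟩
    · rintro m ⟨k, _, rfl⟩
      exact hnQ 0 k (Nat.zero_le k)
    · rintro m ⟨k, hk, rfl⟩
      have h6 : Rj A B (Q (k + 1)) (nx A B σ (n k)) := by
        rcases hst2' k with h7 | h7
        · exact absurd (hK h7) (not_le.2 hk)
        · exact h7
      refine h6.of_tail (n k) ?_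
      rintro m ⟨l, _, rfl⟩ hlk
      exact hnQ _ _ ((h3.lt_iff_lt).1 hlk)

theorem Rj.steps {M : Set ℕ} (hM : M.Infinite) (L : List (Set S × Bool))
    (h : ∀ σ ∈ L, Rj A B M σ) :
    ∃ N ⊆ M, N.Infinite ∧ ∀ σ ∈ L, ∀ n ∈ N, Rj A B N (nx A B σ n) := by
  induction L with
  | nil => exact ⟨M, subset_rfl, hM, fun σ hσ => absurd hσ List.not_mem_nil⟩
  | cons τ L ih =>
    obtain ⟨N, hN, hNi, h1⟩ := ih fun σ hσ => h σ (List.mem_cons_of_mem _ hσ)
    obtain ⟨N', hN', hNi', h2⟩ := Rj.step hNi ((h τ List.mem_cons_self).mono hN)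
    refine ⟨N', hN'.trans hN, hNi', fun σ hσ n hn => ?_⟩
    rcases List.mem_cons.1 hσ with rfl | hσ'
    · exact h2 n hn
    · exact (h1 σ hσ' n (hN' hn)).mono hN'

/-- a stage of the fusion: an infinite set, a finite list of rejected states -/
structure Stage (A B : ℕ → Set S) where
  M : Set ℕ
  L : List (Set S × Bool)
  inf : M.Infinite
  rj : ∀ σ ∈ L, Rj A B M σ

theorem Stage.next (s : Stage A B) : ∃ (t : Stage A B) (n : ℕ), n ∈ s.M ∧ t.M ⊆ s.M ∧
    (∀ m ∈ t.M, n < m) ∧ (∀ σ ∈ s.L, σ ∈ t.L) ∧ (∀ σ ∈ s.L, nx A B σ n ∈ t.L) := by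
  obtain ⟨N, hN, hNi, h⟩ := Rj.steps s.inf s.L s.rj
  have hn : sInf N ∈ N := Nat.sInf_mem hNi.nonempty
  refine ⟨⟨{m ∈ N | sInf N < m}, s.L ++ s.L.map (fun σ => nx A B σ (sInf N)),
    tail_infinite hNi _, ?_⟩, sInf N, hN hn, fun m hm => hN hm.1, fun m hm => hm.2, ?_, ?_⟩
  · intro σ hσ
    rcases List.mem_append.1 hσ with h1 | h1
    · exact (s.rj σ h1).mono fun m hm => hN hm.1
    · obtain ⟨τ, hτ, rfl⟩ := List.mem_map.1 h1
      exact (h τ hτ _ hn).mono fun m hm => hm.1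
  · exact fun σ hσ => List.mem_append_left _ hσ
  · exact fun σ hσ => List.mem_append_right _ (List.mem_map_of_mem hσ)

theorem fusion {M : Set ℕ} (hM : M.Infinite) (σ0 : Set S × Bool) (h : Rj A B M σ0) :
    ∃ (n : ℕ → ℕ) (L : ℕ → List (Set S × Bool)), StrictMono n ∧ (∀ k, n k ∈ M) ∧ σ0 ∈ L 0 ∧
      (∀ k, ∀ σ ∈ L k, σ ∈ L (k + 1)) ∧ (∀ k, ∀ σ ∈ L k, nx A B σ (n k) ∈ L (k + 1)) ∧
      (∀ k, ∀ σ ∈ L k, σ.1.Nonempty) := by
  choose nxt n hn1 hn2 hn3 hn4 hn5 using Stage.next (A := A) (B := B)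
  set s0 : Stage A B := ⟨M, [σ0], hM, fun σ hσ => by
    rw [List.mem_singleton.1 hσ]; exact h⟩ with hs0
  set s : ℕ → Stage A B := fun k => nxt^[k] s0 with hs
  have hsucc : ∀ k, s (k + 1) = nxt (s k) := fun k => by
    simp only [hs, Function.iterate_succ_apply']
  have hMk : ∀ k, (s k).M ⊆ M := by
    intro k
    induction k with
    | zero => exact subset_rfl
    | succ k ih =>
      rw [hsucc]
      exact (hn2 _).trans ih
  refine ⟨fun k => n (s k), fun k => (s k).L, ?_, fun k => hMk k (hn1 _), ?_, ?_, ?_, ?_⟩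
  · refine strictMono_nat_of_lt_succ fun k => ?_
    have h1 := hn1 (s (k + 1))
    exact hn3 (s k) _ (by rw [← hsucc]; exact h1)
  · exact List.mem_singleton.2 rfl
  · intro k σ hσ
    simp only [hsucc]
    exact hn4 _ _ hσ
  · intro k σ hσ
    simp only [hsucc]
    exact hn5 _ _ hσ
  · intro k σ hσ
    exact ((s k).rj σ hσ).nonempty (s k).inf

/-- if every infinite subset of `M0` has a point which is infinitely often in `A` and infinitely
often in `B`, then some subsequence is independent -/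
theorem independent (M0 : Set ℕ) (hM0 : M0.Infinite)
    (H : ∀ M ⊆ M0, M.Infinite → ∃ x, {n ∈ M | x ∈ A n}.Infinite ∧ {n ∈ M | x ∈ B n}.Infinite) :
    ∃ m : ℕ → ℕ, StrictMono m ∧ (∀ k, m k ∈ M0) ∧
      ∀ (ε : ℕ → Bool) (r : ℕ), ∃ x, ∀ j < r, x ∈ side A B (ε j) (m j) := by
  have hrej : Rj A B M0 (Set.univ, true) := by
    intro N hN hNi hacc
    obtain ⟨x, hxA, hxB⟩ := H N hN hNi
    have hnext : ∀ (b : Bool) (a : ℕ), ∃ n, a < n ∧ n ∈ N ∧ x ∈ side A B b n := by
      intro b a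
      cases b
      · obtain ⟨n, hn, han⟩ := hxB.exists_gt a
        exact ⟨n, han, hn.1, by simpa [side] using hn.2⟩
      · obtain ⟨n, hn, han⟩ := hxA.exists_gt a
        exact ⟨n, han, hn.1, by simpa [side] using hn.2⟩
    choose q hq1 hq2 hq3 using hnext
    let w : ℕ → Bool × ℕ := fun k => Nat.rec (true, q true 0) (fun _ p => (!p.1, q (!p.1) p.2)) k
    have hw : ∀ k, w (k + 1) = (!(w k).1, q (!(w k).1) (w k).2) := fun k => rfl
    have hmono : StrictMono fun k => (w k).2 := strictMono_nat_of_lt_succ fun k => by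
      rw [hw]; exact hq1 _ _
    have hmem : ∀ k, (w k).2 ∈ N ∧ x ∈ side A B (w k).1 (w k).2 := by
      intro k
      cases k with
      | zero => exact ⟨hq2 _ _, hq3 _ _⟩
      | succ k => rw [hw]; exact ⟨hq2 _ _, hq3 _ _⟩
    obtain ⟨k, hk⟩ := hacc (fun k => (w k).2) hmono fun i => (hmem i).1
    have hrun : ∀ (k : ℕ) (i : ℕ) (σ : Set S × Bool), x ∈ σ.1 → σ.2 = (w i).1 →
        x ∈ (run A B σ (fun j => (w (j + i)).2) k).1 := by
      intro k
      induction k with
      | zero => intro i σ hx _; exact hx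
      | succ k ih =>
        intro i σ hx hσ
        simp only [run]
        have h1 := ih (i + 1) (nx A B σ (w i).2) ⟨hx, by rw [hσ]; exact (hmem i).2⟩ (by
          rw [hw]; simp [nx, hσ])
        have e1 : (fun j => (w (j + 1 + i)).2) = fun j => (w (j + (i + 1))).2 := by
          funext j
          rw [add_assoc, add_comm 1 i]
        rw [e1, zero_add]
        exact h1
    have h2 := hrun k 0 (Set.univ, true) (Set.mem_univ x) rfl
    simp only [add_zero] at h2
    rw [hk] at h2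
    exact h2
  obtain ⟨n, L, hn, hnM, hL0, hL1, hL2, hL3⟩ := fusion hM0 _ hrej
  refine ⟨fun j => n (2 * j + 1), fun a b hab => hn (by omega), fun k => hnM _, fun ε r => ?_⟩
  have key : ∀ r, ∃ σ ∈ L (2 * r), ∀ x ∈ σ.1, ∀ j < r, x ∈ side A B (ε j) (n (2 * j + 1)) := by
    intro r
    induction r with
    | zero => exact ⟨_, hL0, fun x _ j hj => absurd hj (Nat.not_lt_zero j)⟩
    | succ r ih =>
      obtain ⟨σ, hσ, h1⟩ := ih
      by_cases hb : σ.2 = ε r
      · refine ⟨nx A B σ (n (2 * r + 1)), hL2 _ _ (hL1 _ _ hσ), fun x hx j hj => ?_⟩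
        rcases Nat.lt_succ_iff_lt_or_eq.1 hj with h2 | h2
        · exact h1 x hx.1 j h2
        · rw [h2, ← hb]
          exact hx.2
      · refine ⟨nx A B (nx A B σ (n (2 * r))) (n (2 * r + 1)), hL2 _ _ (hL2 _ _ hσ),
          fun x hx j hj => ?_⟩
        rcases Nat.lt_succ_iff_lt_or_eq.1 hj with h2 | h2
        · exact h1 x hx.1.1 j h2
        · have h3 : (!σ.2) = ε r := by
            cases h4 : σ.2 <;> cases h5 : ε r <;> simp_all
          rw [h2, ← h3]
          exact hx.2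
  obtain ⟨σ, hσ, h1⟩ := key r
  obtain ⟨x, hx⟩ := hL3 _ _ hσ
  exact ⟨x, h1 x hx⟩

end Comb


section Ell

variable {X : Type u} [NormedAddCommGroup X] [NormedSpace ℝ X]

theorem summable_abs (a : lp (fun _ : ℕ => ℝ) 1) : Summable fun i => |a i| := by
  have h := (memℓp_gen_iff (p := 1) (by norm_num)).1 (lp.memℓp a)
  simpa using h

theorem norm_eq_tsum_abs (a : lp (fun _ : ℕ => ℝ) 1) : ‖a‖ = ∑' i, |a i| := by
  rw [lp.norm_eq_tsum_rpow (by norm_num)]
  simp

theorem hasEll1_of_lower [CompleteSpace X] (y : ℕ → X) (hy : ∀ n, ‖y n‖ ≤ 1) (c : ℝ) (hc : 0 < c)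
    (h : ∀ (a : ℕ → ℝ) (r : ℕ), c * ∑ j ∈ Finset.range r, |a j| ≤
      ‖∑ j ∈ Finset.range r, a j • y j‖) : HasEll1 X := by
  have hn : ∀ (a : lp (fun _ : ℕ => ℝ) 1) (j : ℕ), ‖a j • y j‖ ≤ |a j| := by
    intro a j
    rw [norm_smul, Real.norm_eq_abs]
    exact mul_le_of_le_one_right (abs_nonneg _) (hy j)
  have hs' : ∀ a : lp (fun _ : ℕ => ℝ) 1, Summable fun j => ‖a j • y j‖ := fun a =>
    Summable.of_nonneg_of_le (fun j => norm_nonneg _) (hn a) (summable_abs a)
  have hs : ∀ a : lp (fun _ : ℕ => ℝ) 1, Summable fun j => a j • y j := fun a => (hs' a).of_norm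
  let T0 : lp (fun _ : ℕ => ℝ) 1 →ₗ[ℝ] X :=
    { toFun := fun a => ∑' j, a j • y j
      map_add' := fun a b => by
        rw [← (hs a).tsum_add (hs b)]
        refine tsum_congr fun j => ?_
        rw [lp.coeFn_add, Pi.add_apply, add_smul]
      map_smul' := fun t a => by
        rw [RingHom.id_apply, ← tsum_const_smul'']
        refine tsum_congr fun j => ?_
        rw [lp.coeFn_smul, Pi.smul_apply, smul_eq_mul, mul_smul] }
  have hT0 : ∀ a, T0 a = ∑' j, a j • y j := fun a => rfl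
  refine ⟨T0.mkContinuous 1 fun a => ?_, c, hc, fun a => ?_⟩
  · rw [hT0, one_mul, norm_eq_tsum_abs]
    exact (norm_tsum_le_tsum_norm (hs' a)).trans
      ((hs' a).tsum_le_tsum (hn a) (summable_abs a))
  · rw [LinearMap.mkContinuous_apply, hT0, norm_eq_tsum_abs]
    have h1 := (hs a).hasSum.tendsto_sum_nat.norm
    have h2 := ((summable_abs a).hasSum.tendsto_sum_nat).const_mul c
    exact le_of_tendsto_of_tendsto' h2 h1 fun r => h _ r

/-- functionals in the unit ball below `r`, above `q` -/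
def lowS (y : ℕ → X) (r : ℝ) (n : ℕ) : Set (X →L[ℝ] ℝ) := {f | ‖f‖ ≤ 1 ∧ f (y n) < r}

/-- functionals in the unit ball above `q` -/
def uppS (y : ℕ → X) (q : ℝ) (n : ℕ) : Set (X →L[ℝ] ℝ) := {f | ‖f‖ ≤ 1 ∧ q < f (y n)}

theorem lower_of_indep (y : ℕ → X) (r q : ℝ) (m : ℕ → ℕ)
    (h : ∀ (ε : ℕ → Bool) (k : ℕ), ∃ f, ∀ j < k, f ∈ side (lowS y r) (uppS y q) (ε j) (m j))
    (a : ℕ → ℝ) (k : ℕ) :
    (q - r) / 2 * ∑ j ∈ Finset.range k, |a j| ≤ ‖∑ j ∈ Finset.range k, a j • y (m j)‖ := by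
  rcases Nat.eq_zero_or_pos k with hk | hk
  · rw [hk]
    simp
  obtain ⟨f, hf⟩ := h (fun j => decide (a j < 0)) k
  obtain ⟨g, hg⟩ := h (fun j => !decide (a j < 0)) k
  have hf1 : ‖f‖ ≤ 1 := by
    have h1 := hf 0 hk
    by_cases h2 : a 0 < 0
    · simp only [side, decide_true, h2, if_true, lowS] at h1
      exact h1.1
    · simp only [side, h2, decide_false, lowS, uppS] at h1
      exact h1.1
  have hg1 : ‖g‖ ≤ 1 := by
    have h1 := hg 0 hk
    by_cases h2 : a 0 < 0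
    · simp only [side, h2, decide_true, Bool.not_true, lowS, uppS] at h1
      exact h1.1
    · simp only [side, h2, decide_false, Bool.not_false, if_true, lowS] at h1
      exact h1.1
  have h3 : ∀ j ∈ Finset.range k, (q - r) * |a j| ≤ a j * ((f - g) (y (m j))) := by
    intro j hj
    have h4 := hf j (Finset.mem_range.1 hj)
    have h5 := hg j (Finset.mem_range.1 hj)
    rw [sub_apply]
    by_cases h2 : a j < 0
    · simp only [side, h2, decide_true, if_true, lowS, Set.mem_ofPred_eq] at h4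
      simp only [side, h2, decide_true, Bool.not_true, uppS] at h5
      have h6 := h4.2
      have h7 : q < g (y (m j)) := h5.2
      rw [abs_of_neg h2]
      nlinarith
    · simp only [side, h2, decide_false, uppS] at h4
      simp only [side, h2, decide_false, Bool.not_false, if_true, lowS, Set.mem_ofPred_eq] at h5
      have h6 : q < f (y (m j)) := h4.2
      have h7 := h5.2
      push Not at h2
      rw [abs_of_nonneg h2]
      nlinarith
  have h8 : (q - r) * ∑ j ∈ Finset.range k, |a j| ≤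
      (f - g) (∑ j ∈ Finset.range k, a j • y (m j)) := by
    rw [Finset.mul_sum, map_sum]
    refine Finset.sum_le_sum fun j hj => ?_
    rw [map_smul, smul_eq_mul]
    exact h3 j hj
  have h9 : (f - g) (∑ j ∈ Finset.range k, a j • y (m j)) ≤
      2 * ‖∑ j ∈ Finset.range k, a j • y (m j)‖ := by
    refine (le_abs_self _).trans ?_
    rw [← Real.norm_eq_abs]
    refine ((f - g).le_opNorm _).trans ?_
    have h10 : ‖f - g‖ ≤ 2 := (norm_sub_le f g).trans (by linarith)
    gcongr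
  linarith

/-- the diagonal argument over a countable family of properties -/
theorem diag (P : ℕ → Set ℕ → Prop) (hP : ∀ k M, M.Infinite → ∃ N ⊆ M, N.Infinite ∧ P k N) :
    ∃ (φ : ℕ → ℕ) (Q : ℕ → Set ℕ), StrictMono φ ∧ (∀ k, P k (Q k)) ∧
      ∀ k j, k ≤ j → φ j ∈ Q k := by
  have hstep : ∀ (p : ℕ × {M : Set ℕ // M.Infinite}), ∃ N : {M : Set ℕ // M.Infinite},
      N.1 ⊆ p.2.1 ∧ P p.1 N.1 := by
    rintro ⟨k, M⟩
    obtain ⟨N, hN, hNi, h⟩ := hP k M.1 M.2
    exact ⟨⟨N, hNi⟩, hN, h⟩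
  choose st hst1 hst2 using hstep
  let tl : {M : Set ℕ // M.Infinite} → {M : Set ℕ // M.Infinite} := fun M =>
    ⟨{m ∈ M.1 | sInf M.1 < m}, tail_infinite M.2 _⟩
  let w : ℕ → {M : Set ℕ // M.Infinite} := fun k =>
    Nat.rec (st (0, ⟨Set.univ, Set.infinite_univ⟩)) (fun k M => st (k + 1, tl M)) k
  have hw : ∀ k, w (k + 1) = st (k + 1, tl (w k)) := fun k => rfl
  have hsub : ∀ k, (w (k + 1)).1 ⊆ {m ∈ (w k).1 | sInf (w k).1 < m} := fun k => by
    rw [hw]; exact hst1 _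
  have hmem : ∀ k, sInf (w k).1 ∈ (w k).1 := fun k => Nat.sInf_mem (w k).2.nonempty
  have hanti : ∀ k j, k ≤ j → (w j).1 ⊆ (w k).1 := by
    intro k j hkj
    induction j, hkj using Nat.le_induction with
    | base => exact subset_rfl
    | succ j _ ih => exact fun m hm => ih (hsub j hm).1
  refine ⟨fun k => sInf (w k).1, fun k => (w k).1, strictMono_nat_of_lt_succ fun k => ?_,
    fun k => ?_, fun k j hkj => hanti k j hkj (hmem j)⟩
  · exact (hsub k (hmem (k + 1))).2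
  · cases k with
    | zero => exact hst2 (0, ⟨Set.univ, Set.infinite_univ⟩)
    | succ k => exact hst2 (k + 1, tl (w k))

end Ell

end Ros

open Ros in
/-- Rosenthal's theorem: in a Banach space without a copy of `ℓ₁` every bounded sequence has a
weakly Cauchy subsequence -/
theorem rosenthal_l1 {X : Type u} [NormedAddCommGroup X] [NormedSpace ℝ X] [CompleteSpace X]
    (hX : ¬ HasEll1 X) (y : ℕ → X) (hy : ∀ n, ‖y n‖ ≤ 1) :
    ∃ φ : ℕ → ℕ, StrictMono φ ∧
      ∀ f : X →L[ℝ] ℝ, ∃ l : ℝ, Tendsto (fun n => f (y (φ n))) atTop (𝓝 l) := by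
  obtain ⟨e, he⟩ := exists_surjective_nat (ℚ × ℚ)
  let P : ℕ → Set ℕ → Prop := fun k N => ((e k).1 : ℝ) < (e k).2 → ∀ f : X →L[ℝ] ℝ,
    ¬ ({n ∈ N | f ∈ lowS y (e k).1 n}.Infinite ∧ {n ∈ N | f ∈ uppS y (e k).2 n}.Infinite)
  have hP : ∀ k M, M.Infinite → ∃ N ⊆ M, N.Infinite ∧ P k N := by
    intro k M hM
    by_contra hcon
    push Not at hcon
    have h1 : ((e k).1 : ℝ) < (e k).2 := by
      by_contra h2
      exact hcon M subset_rfl hM fun h3 => absurd h3 h2
    have H : ∀ N ⊆ M, N.Infinite → ∃ f, {n ∈ N | f ∈ lowS y (e k).1 n}.Infinite ∧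
        {n ∈ N | f ∈ uppS y (e k).2 n}.Infinite := by
      intro N hN hNi
      by_contra h2
      push Not at h2
      exact hcon N hN hNi fun _ f h3 => h3.2 (h2 f h3.1)
    obtain ⟨m, _, _, hm⟩ := independent M hM H
    refine hX (hasEll1_of_lower (fun j => y (m j)) (fun j => hy _) (((e k).2 - (e k).1) / 2)
      (by linarith) fun a r => ?_)
    exact lower_of_indep y _ _ m hm a r
  obtain ⟨φ, Q, hφ, hQ, hφQ⟩ := diag P hP
  refine ⟨φ, hφ, fun f => ?_⟩
  have ht : 0 < ‖f‖ + 1 := by positivity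
  set g : X →L[ℝ] ℝ := (‖f‖ + 1)⁻¹ • f with hg
  have hg1 : ‖g‖ ≤ 1 := by
    rw [hg, norm_smul, norm_inv, Real.norm_eq_abs, abs_of_pos ht, inv_mul_le_iff₀ ht]
    linarith
  have hb : ∀ n, |g (y (φ n))| ≤ 1 := fun n => by
    rw [← Real.norm_eq_abs]
    refine (g.le_opNorm _).trans ?_
    have h1 := hy (φ n)
    have h2 := norm_nonneg (y (φ n))
    nlinarith [norm_nonneg g]
  have hlim : ∃ l : ℝ, Tendsto (fun n => g (y (φ n))) atTop (𝓝 l) := by
    refine tendsto_of_no_upcrossings (s := Set.range ((↑) : ℚ → ℝ)) Rat.denseRange_cast ?_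
      (isBoundedUnder_of ⟨1, fun n => (abs_le.1 (hb n)).2⟩)
      (isBoundedUnder_of ⟨-1, fun n => (abs_le.1 (hb n)).1⟩)
    rintro _ ⟨a, rfl⟩ _ ⟨b, rfl⟩ hab ⟨h1, h2⟩
    obtain ⟨k, hk⟩ := he (a, b)
    refine hQ k (by rw [hk]; exact hab) g ⟨?_, ?_⟩
    · have h3 := Nat.frequently_atTop_iff_infinite.1 (h1.and_eventually (eventually_ge_atTop k))
      refine (h3.image hφ.injective.injOn).mono ?_
      rintro _ ⟨n, hn, rfl⟩
      exact ⟨hφQ k n hn.2, hg1, by rw [hk]; exact hn.1⟩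
    · have h3 := Nat.frequently_atTop_iff_infinite.1 (h2.and_eventually (eventually_ge_atTop k))
      refine (h3.image hφ.injective.injOn).mono ?_
      rintro _ ⟨n, hn, rfl⟩
      exact ⟨hφQ k n hn.2, hg1, by rw [hk]; exact hn.1⟩
  obtain ⟨l, hl⟩ := hlim
  refine ⟨(‖f‖ + 1) * l, ?_⟩
  have h1 := hl.const_mul (‖f‖ + 1)
  refine h1.congr fun n => ?_
  rw [hg, smul_apply, smul_eq_mul, mul_inv_cancel_left₀ ht.ne']

end Pool.Agent.W_MP_d6e406_h11
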