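import Pool.Agent.W_MP_d6e406_h11.Defs

set_option autoImplicit false

open Filter Topology

namespace Pool.Agent.W_MP_d6e406_h11

universe u

/-- finite trees: `Om m a` is the product of the finite sets `Fin (m k + 1) × Bool`, `k < a`. -/
def Om (m : ℕ → ℕ) : ℕ → Type
  | 0 => Unit
  | a + 1 => Om m a × (Fin (m a + 1) × Bool)

instance Om.fintype (m : ℕ → ℕ) : ∀ a, Fintype (Om m a)
  | 0 => inferInstanceAs (Fintype Unit)
  | a + 1 => by
      have := Om.fintype m a
      exact inferInstanceAs (Fintype (Om m a × (Fin (m a + 1) × Bool)))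

instance Om.nonempty (m : ℕ → ℕ) : ∀ a, Nonempty (Om m a)
  | 0 => inferInstanceAs (Nonempty Unit)
  | a + 1 => by
      have := Om.nonempty m a
      exact inferInstanceAs (Nonempty (Om m a × (Fin (m a + 1) × Bool)))

/-- the coordinates of a point of `Om m a` (default values for coordinates `≥ a`). -/
def co (m : ℕ → ℕ) : ∀ a, Om m a → ∀ k : ℕ, Fin (m k + 1) × Bool
  | 0, _ => fun _ => (0, false)
  | a + 1, o => Function.update (co m a o.1) a o.2

def sg (b : Bool) : ℝ := if b then 1 else -1

@[simp] lemma sg_true : sg true = 1 := by simp [sg]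
@[simp] lemma sg_false : sg false = -1 := by simp [sg]
lemma abs_sg (b : Bool) : |sg b| = 1 := by cases b <;> simp

/-- uniform average over `Om m a`. -/
noncomputable def av (m : ℕ → ℕ) (a : ℕ) {V : Type*} [AddCommGroup V] [Module ℝ V]
    (F : Om m a → V) : V :=
  (1 / (Fintype.card (Om m a) : ℝ)) • ∑ o : Om m a, F o

section av
variable (m : ℕ → ℕ) (a : ℕ) {V : Type*} [AddCommGroup V] [Module ℝ V]

lemma card_pos : 0 < (Fintype.card (Om m a) : ℝ) := by
  exact_mod_cast Fintype.card_pos

lemma av_add (F G : Om m a → V) : av m a (fun o => F o + G o) = av m a F + av m a G := by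
  simp [av, Finset.sum_add_distrib, smul_add]

lemma av_smul (t : ℝ) (F : Om m a → V) : av m a (fun o => t • F o) = t • av m a F := by
  simp only [av, ← Finset.smul_sum]
  rw [smul_comm]

lemma av_const (v : V) : av m a (fun _ => v) = v := by
  have h := (card_pos m a).ne'
  simp only [av, Finset.sum_const, Finset.card_univ]
  rw [← Nat.cast_smul_eq_nsmul ℝ, smul_smul, one_div, inv_mul_cancel₀ h, one_smul]

lemma av_mono {F G : Om m a → ℝ} (h : ∀ o, F o ≤ G o) : av m a F ≤ av m a G := by
  simp only [av, smul_eq_mul]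
  exact mul_le_mul_of_nonneg_left (Finset.sum_le_sum fun o _ => h o)
    (by have := card_pos m a; positivity)

lemma av_map {W : Type*} [AddCommGroup W] [Module ℝ W] (T : V →ₗ[ℝ] W) (F : Om m a → V) :
    T (av m a F) = av m a (fun o => T (F o)) := by
  simp [av, map_sum]

lemma av_succ (F : Om m (a + 1) → V) :
    av m (a + 1) F = (1 / (2 * ((m a : ℝ) + 1))) • ∑ i : Fin (m a + 1),
      (av m a (fun o => F (o, (i, true))) + av m a (fun o => F (o, (i, false)))) := by
  have hc : (Fintype.card (Om m (a + 1)) : ℝ) =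
      (Fintype.card (Om m a) : ℝ) * (2 * ((m a : ℝ) + 1)) := by
    have : Fintype.card (Om m (a + 1)) = Fintype.card (Om m a × (Fin (m a + 1) × Bool)) := by
      exact Fintype.card_congr (Equiv.refl _)
    rw [this, Fintype.card_prod, Fintype.card_prod, Fintype.card_fin, Fintype.card_bool]
    push_cast
    ring
  have hs : ∑ o : Om m (a + 1), F o =
      ∑ i : Fin (m a + 1), (∑ o : Om m a, F (o, (i, true)) + ∑ o : Om m a, F (o, (i, false))) := by
    have key : ∀ G : Om m a × (Fin (m a + 1) × Bool) → V, ∑ o, G o =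
        ∑ i : Fin (m a + 1),
          (∑ o : Om m a, G (o, (i, true)) + ∑ o : Om m a, G (o, (i, false))) := by
      intro G
      rw [Fintype.sum_prod_type, Finset.sum_comm, Fintype.sum_prod_type]
      refine Finset.sum_congr rfl fun i _ => ?_
      simp
    exact key F
  unfold av
  rw [hc, hs]
  simp only [← smul_add, ← Finset.smul_sum]
  rw [smul_smul]
  congr 1
  have := (card_pos m a).ne'
  have h2 : (2 * ((m a : ℝ) + 1)) ≠ 0 := by positivity
  field_simp

end av

end Pool.Agent.W_MP_d6e406_h11
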